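import Pool.Agent.Helper35K9.OF.Ari
import Pool.Agent.Helper35K9.OF.Cls

/-! The matrix of the twists, odd case. -/

set_option autoImplicit false

namespace Pool.Agent.Helper35K9.NQ

open Finset
open Pool.Agent.Helper35K9.OF
open Pool.Agent.Y697.MQ (leg leg_ne leg_congr leg_eq_zero leg_mul leg_sq_eq OP Pr Pr_iff Pr_prod gA Gd recip gA_zero)
open Pool.Agent.Helper35K9.TW
open Pool.Agent.Helper35K9.LW.Rep (Primary symbol op_iff symbol_eq leg_neg_left inert_leg leg_i)
open Pool.Agent.Y697.PP (Mt)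
open Pool.Agent.Helper35K9.TW.PP (gA_symm)

/-- the row sum of a prime -/
theorem row_sum0 {Q : Finset GaussianInt} (hQ : ∀ x ∈ Q, OP x) {q : GaussianInt} (hq : OP q)
    (hqQ : q ∉ Q) :
    ∑ x ∈ Q, gA q x = lg (leg q (∏ x ∈ Q, x)) ∧
      (leg q (∏ x ∈ Q, x) = 1 ∨ leg q (∏ x ∈ Q, x) = -1) := by
  have hne : ∀ x ∈ Q, q ≠ x := fun x hx h => hqQ (h ▸ hx)
  have h1 : ∀ x ∈ Q, leg q x = 1 ∨ leg q x = -1 := fun x hx =>
    leg_ne fun h => hne x hx (hq.dvd (hQ x hx) h)
  obtain ⟨h3, h4⟩ := lg_prod Q (fun x => leg q x) h1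
  rw [leg_prod hq.pr]
  refine ⟨?_, h4⟩
  rw [h3]
  refine sum_congr rfl fun x hx => ?_
  rw [gA_lg, recip hq (hQ x hx) (hne x hx)]

section matrix

variable {Q : Finset GaussianInt} {x₀ : GaussianInt} {s : ℕ} (e : Fin s ≃ (Q.erase x₀ : Finset GaussianInt))

/-- the symmetric matrix of `D` -/
noncomputable def Mx0 : Matrix (Fin s) (Fin s) (ZMod 2) :=
  Lp (fun v u => gA (e v) (e u)) (fun v => gA (e v) x₀)

/-- the vector of a prime -/
noncomputable def bb0 (p : ℕ) (k : Prs s) : ZMod 2 :=
  gA (-(p : GaussianInt)) (e k.1.1) * gA (-(p : GaussianInt)) (e k.1.2)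

open Classical in
/-- **The determinant of the union.** -/
theorem det_union0 (hsch : S_SCH) (hQ : ∀ x ∈ Q, OP x) (hx₀ : x₀ ∈ Q) {d : ℕ}
    (hd : ∀ p ∈ d.primeFactors, p % 4 = 3 ∧ leg (-(p : GaussianInt)) (∏ x ∈ Q, x) = -1) :
    Disjoint Q (d.primeFactors.image fun p : ℕ => -(p : GaussianInt)) ∧
    (Mt gA (fun v => gA v x₀)
      ((Q ∪ d.primeFactors.image fun p : ℕ => -(p : GaussianInt)).erase x₀)).det =
      (Mx0 e + alt (∑ p ∈ d.primeFactors, bb0 e p)).det := by
  have hO : ∀ p ∈ d.primeFactors, OP (-(p : GaussianInt)) := fun p hp =>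
    inert_OP4 (Nat.prime_of_mem_primeFactors hp) (hd p hp).1
  have hnot : ∀ p ∈ d.primeFactors, -(p : GaussianInt) ∉ Q := by
    intro p hp h
    have h1 := (hd p hp).2
    rw [(leg_eq_zero).2 (dvd_prod_of_mem (fun x : GaussianInt => x) h)] at h1
    exact absurd h1 (by norm_num)
  have hdis : Disjoint Q (d.primeFactors.image fun p : ℕ => -(p : GaussianInt)) := by
    rw [disjoint_left]
    intro x hx hx'
    obtain ⟨p, hp, rfl⟩ := mem_image.1 hx'
    exact hnot p hp hx
  refine ⟨hdis, ?_⟩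
  have heQ : ∀ v : Fin s, (e v : GaussianInt) ∈ Q := fun v => mem_of_mem_erase (e v).2
  set f : Fin s ⊕ d.primeFactors → GaussianInt :=
    Sum.elim (fun v => (e v : GaussianInt)) (fun p => -((p : ℕ) : GaussianInt)) with hf
  have hfinj : Function.Injective f := by
    rintro (v | p) (u | q) h
    · exact congrArg Sum.inl (e.injective (Subtype.ext h))
    · exfalso
      have h' : (e v : GaussianInt) = -((q : ℕ) : GaussianInt) := h
      exact hnot q q.2 (h' ▸ heQ v)
    · exfalso
      have h' : -((p : ℕ) : GaussianInt) = (e u : GaussianInt) := h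
      exact hnot p p.2 (h' ▸ heQ u)
    · have h' : -((p : ℕ) : GaussianInt) = -((q : ℕ) : GaussianInt) := h
      exact congrArg Sum.inr (Subtype.ext (by exact_mod_cast neg_injective h'))
  have hfim : univ.image f = (Q ∪ d.primeFactors.image fun p : ℕ => -(p : GaussianInt)).erase x₀ := by
    ext x
    simp only [mem_image, mem_univ, true_and, mem_union, mem_erase]
    constructor
    · rintro ⟨v | p, rfl⟩
      · exact ⟨(mem_erase.1 (e v).2).1, Or.inl (heQ v)⟩
      · refine ⟨fun h => hnot p p.2 ?_, Or.inr ⟨p, p.2, rfl⟩⟩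
        have h' : -((p : ℕ) : GaussianInt) = x₀ := h
        rw [h']
        exact hx₀
    · rintro ⟨hne, h | ⟨p, hp, rfl⟩⟩
      · refine ⟨Sum.inl (e.symm ⟨x, mem_erase.2 ⟨hne, h⟩⟩), ?_⟩
        show ((e (e.symm ⟨x, _⟩) : (Q.erase x₀ : Finset GaussianInt)) : GaussianInt) = x
        rw [Equiv.apply_symm_apply]
      · exact ⟨Sum.inr ⟨p, hp⟩, rfl⟩
  have hfO : ∀ x, OP (f x) := by
    rintro (v | p)
    · exact hQ _ (heQ v)
    · exact hO p p.2
  rw [Pool.Agent.Y697.PP.det_Mt gA (fun v => gA v x₀) _ f hfinj hfim]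
  have h1 := hsch (Fin s) d.primeFactors (fun x y => gA (f x) (f y)) (fun x => gA (f x) x₀)
    (fun x y => gA_symm (hfO x) (hfO y)) ?_ ?_
  · have h2 : Pool.Agent.Y697.PP.MW (fun x y => gA (f x) (f y)) (fun x => gA (f x) x₀) =
        Lp (fun x y => gA (f x) (f y)) (fun x => gA (f x) x₀) := by
      ext v u
      unfold Pool.Agent.Y697.PP.MW Lp
      congr!
    rw [h2, h1]
    congr 1
    ext v u
    rw [sum_alt, Matrix.add_apply, Matrix.sum_apply]
    congr 1
    by_cases h3 : u = v
    · rw [if_pos h3, h3]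
      symm
      refine sum_eq_zero fun p _ => ?_
      unfold alt
      rw [dif_neg (lt_irrefl _), dif_neg (lt_irrefl _)]
    · rw [if_neg h3, ← Finset.sum_coe_sort d.primeFactors]
      refine sum_congr rfl fun p _ => ?_
      have h4 : ∀ w : Fin s, gA (f (Sum.inl w)) (f (Sum.inr p)) =
          gA (-((p : ℕ) : GaussianInt)) (e w) := fun w => gA_symm (hQ _ (heQ w)) (hO p p.2)
      rw [h4, h4]
      unfold alt bb0
      rcases lt_or_gt_of_ne h3 with h5 | h5
      · rw [dif_neg (not_lt.2 h5.le), dif_pos h5]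
        exact mul_comm _ _
      · rw [dif_pos h5]
  · intro p q hpq
    have h3 : (p : ℕ) ≠ q := fun h => hpq (Subtype.ext h)
    have hp := Nat.prime_of_mem_primeFactors p.2
    have hq := Nat.prime_of_mem_primeFactors q.2
    refine (gA_zero (hO p p.2) (hO q q.2) (fun h => h3 (by exact_mod_cast neg_injective h)) ?_).1
    rw [leg_neg_left]
    have h4 := inert_leg hp (hd p p.2).1 (-((q : ℕ) : ℤ)) (by
      rw [dvd_neg]
      intro h
      have h5 : (p : ℕ) ∣ q := by exact_mod_cast h
      exact h3 ((Nat.prime_dvd_prime_iff_eq hp hq).1 h5))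
    push_cast at h4
    exact h4
  · intro p
    have h3 := (row_sum0 hQ (hO p p.2) (hnot p p.2)).1
    rw [(hd p p.2).2, ← add_sum_erase Q _ hx₀] at h3
    have h4 : ∑ v : Fin s, gA (f (Sum.inr p)) (f (Sum.inl v)) =
        ∑ x ∈ Q.erase x₀, gA (-((p : ℕ) : GaussianInt)) x := by
      rw [← Finset.sum_coe_sort (Q.erase x₀)]
      exact Equiv.sum_comp e (fun x : (Q.erase x₀ : Finset GaussianInt) => gA (-((p : ℕ) : GaussianInt)) x)
    rw [h4]
    exact h3

end matrix

open Classical in
/-- the divergence -/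
theorem nonsum0 (hdir : S_DIR) {Q : Finset GaussianInt} (hQ : ∀ x ∈ Q, OP x)
    (hN : ∀ x ∈ Q, (x.norm.natAbs).Prime)
    (hNi : Set.InjOn (fun x : GaussianInt => x.norm.natAbs) Q) {x₀ : GaussianInt} (hx₀ : x₀ ∈ Q)
    {s : ℕ} (e : Fin s ≃ (Q.erase x₀ : Finset GaussianInt))
    (φ : Prs s → ZMod 2) (hφ : φ ≠ 0) : ¬ Summable (fun p : ℕ =>
      if p.Prime ∧ P4 (-∏ x ∈ Q, x) p ∧ ∑ k, φ k * bb0 e p k = 1 then (1 / p : ℝ) else 0) := by
  have hk : ∃ k, φ k = 1 := by
    by_contra hc
    push Not at hc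
    apply hφ
    funext k
    have : ∀ z : ZMod 2, z ≠ 1 → z = 0 := by decide
    exact this _ (hc k)
  obtain ⟨k₀, hk₀⟩ := hk
  set C : Finset GaussianInt := {x₀, (e k₀.1.1 : GaussianInt), (e k₀.1.2 : GaussianInt)} with hC
  obtain ⟨q, a, hq, haq, hcl⟩ := cls hQ hN hNi C
  intro hsum
  apply hdir q a hq haq
  refine Summable.of_nonneg_of_le (fun p => by split_ifs <;> positivity) (fun p => ?_) hsum
  by_cases hp : p.Prime ∧ p ≡ a [MOD q]
  swap
  · rw [if_neg hp]
    split_ifs <;> positivity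
  obtain ⟨h8, hx⟩ := hcl p hp.1 hp.2
  obtain ⟨hOP, -⟩ := Pool.Agent.Helper35K9.LW.Rep.inert_OP hp.1 h8
  have heQ : ∀ v : Fin s, (e v : GaussianInt) ∈ Q := fun v => mem_of_mem_erase (e v).2
  have hex : ∀ v : Fin s, (e v : GaussianInt) ≠ x₀ := fun v => (mem_erase.1 (e v).2).1
  have hne : (e k₀.1.1 : GaussianInt) ≠ (e k₀.1.2 : GaussianInt) := by
    intro h
    have := e.injective (Subtype.ext h)
    exact absurd this (ne_of_lt k₀.2)
  have hgA : ∀ x ∈ Q, gA (-(p : GaussianInt)) x = if x ∈ C then 1 else 0 := by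
    intro x hxQ
    rw [gA_lg, hx x hxQ]
    split_ifs <;> rfl
  have hnot : -(p : GaussianInt) ∉ Q := by
    intro h
    have h1 := hx _ h
    rw [leg_eq_zero.2 (dvd_refl _)] at h1
    split_ifs at h1 <;> norm_num at h1
  have hP4 : P4 (-∏ x ∈ Q, x) p := by
    refine ⟨by omega, ?_⟩
    rw [symbol_eq, ← leg_neg_left, leg_neg_right hOP.pr]
    obtain ⟨h1, h2⟩ := row_sum0 hQ hOP hnot
    rw [← lg_inj h2, ← h1, Finset.sum_congr rfl hgA, Finset.sum_ite_mem,
      Finset.sum_const]
    have h3 : (Q ∩ C).card = 3 := by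
      have h4 : Q ∩ C = C := Finset.inter_eq_right.2 (by
        intro y hy
        rw [hC, Finset.mem_insert, Finset.mem_insert, Finset.mem_singleton] at hy
        rcases hy with rfl | rfl | rfl
        · exact hx₀
        · exact heQ _
        · exact heQ _)
      rw [h4, hC, Finset.card_insert_of_notMem, Finset.card_pair hne]
      rw [Finset.mem_insert, Finset.mem_singleton, not_or]
      exact ⟨(hex _).symm, (hex _).symm⟩
    rw [h3]
    decide
  have hsumk : ∑ k, φ k * bb0 e p k = 1 := by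
    rw [Finset.sum_eq_single k₀]
    · unfold bb0
      rw [hgA _ (heQ k₀.1.1), hgA _ (heQ k₀.1.2), hk₀, if_pos (by rw [hC]; simp),
        if_pos (by rw [hC]; simp)]
      rfl
    · intro k _ hkk
      unfold bb0
      rw [hgA _ (heQ k.1.1), hgA _ (heQ k.1.2)]
      by_cases h1 : (e k.1.1 : GaussianInt) ∈ C
      · by_cases h2 : (e k.1.2 : GaussianInt) ∈ C
        · exfalso
          rw [hC, Finset.mem_insert, Finset.mem_insert, Finset.mem_singleton] at h1 h2
          have h1' := h1.resolve_left (hex _)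
          have h2' := h2.resolve_left (hex _)
          have inj : ∀ {i j : Fin s}, (e i : GaussianInt) = (e j : GaussianInt) → i = j :=
            fun h => e.injective (Subtype.ext h)
          apply hkk
          have hlt := k.2
          have hlt₀ := k₀.2
          apply Subtype.ext
          apply Prod.ext
          · rcases h1' with h1 | h1
            · exact inj h1
            · exfalso
              rw [inj h1] at hlt
              rcases h2' with h2 | h2
              · rw [inj h2] at hlt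
                exact lt_asymm hlt hlt₀
              · rw [inj h2] at hlt
                exact lt_irrefl _ hlt
          · rcases h2' with h2 | h2
            · exfalso
              rw [inj h2] at hlt
              rcases h1' with h1 | h1
              · rw [inj h1] at hlt
                exact lt_irrefl _ hlt
              · rw [inj h1] at hlt
                exact lt_asymm hlt hlt₀
            · exact inj h2
        · rw [if_neg h2, mul_zero, mul_zero]
      · rw [if_neg h1, zero_mul, mul_zero]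
    · intro h
      exact absurd (Finset.mem_univ _) h
  rw [if_pos hp, if_pos ⟨hp.1, hP4, hsumk⟩]

end Pool.Agent.Helper35K9.NQ
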