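import Pool.Agent.Helper35K9.NQ.Rule
import Pool.Agent.Helper35K9.OF.Pim

/-! The density, odd case. -/

set_option autoImplicit false

namespace Pool.Agent.Helper35K9.NQ

open Filter Topology
open Pool.Agent.Helper35K9.LW.Rep (Primary symbol)

/-- The squarefree `d ≥ 1` all of whose prime factors `p` satisfy `p ≡ 3 mod 4` and `(D / p) = -1`: `D` is not a
square modulo the prime `p` of `ℤ[i]`, and the Frobenius of `p` has order eight in the Galois group of the
Galois closure of `ℚ(i, D^(1/4))`. -/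
def Ord8 (D : GaussianInt) : Set ℕ := {d | Squarefree d ∧ ∀ p : ℕ, p.Prime → p ∣ d →
  p % 4 = 3 ∧ symbol (p : GaussianInt) D = -1}

open Classical in
/-- the Dirichlet series `∑_(n ∈ S) n ^ (-x)` -/
noncomputable def series (S : Set ℕ) (x : ℝ) : ℝ := ∑' n : ℕ, if n ∈ S then (n : ℝ) ^ (-x) else 0

/-- the number of the prime factors of the norm of `D` -/
def om (D : GaussianInt) : ℕ := D.norm.natAbs.primeFactors.card

/-- `∏_(i < m) (1 - 2 ^ (-(2 i + 1)))` -/
noncomputable def proportion (m : ℕ) : ℝ := ∏ i ∈ Finset.range m, (1 - 1 / 2 ^ (2 * i + 1))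

section proof

open Finset
open Pool.Agent.Helper35K9.TW
open Pool.Agent.Helper35K9.OF
open Pool.Agent.Helper35K9.LW.Rep (op_iff symbol_eq leg_neg_left)
open Pool.Agent.Y697.MQ (OP leg gA exists_ker2 leg_eq_zero)

theorem norm_pi (Q : Finset GaussianInt) :
    (∏ x ∈ Q, x).norm.natAbs = ∏ x ∈ Q, x.norm.natAbs := by
  classical
  induction Q using Finset.induction_on with
  | empty => rw [prod_empty, prod_empty]; rfl
  | insert a s ha ih => rw [prod_insert ha, prod_insert ha, Zsqrtd.norm_mul, Int.natAbs_mul, ih]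

/-- the structure of `D` -/
theorem decomp {D : GaussianInt} (h1 : (4 : GaussianInt) ∣ D - ⟨1, 2⟩)
    (h2 : Squarefree D.norm.natAbs) : ∃ Q : Finset GaussianInt, (∀ x ∈ Q, OP x) ∧
      D = -∏ x ∈ Q, x ∧ (∀ x ∈ Q, (x.norm.natAbs).Prime) ∧ (∀ x ∈ Q, x.norm.natAbs ≠ 2) ∧
      Set.InjOn (fun x : GaussianInt => x.norm.natAbs) Q ∧ Q.card = om D := by
  classical
  have hPr : Primary (-D) := by
    obtain ⟨c, hc⟩ := h1
    have e : (⟨2, 2⟩ : GaussianInt) * ⟨1, -1⟩ = 4 := by decide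
    have e2 : (⟨1, 2⟩ : GaussianInt) + 1 = ⟨2, 2⟩ := by decide
    refine ⟨-(⟨1, -1⟩ * c) - 1, ?_⟩
    linear_combination -hc + c * e - e2
  obtain ⟨Q, hQ, e, he, hge⟩ := exists_ker2 (-D) ((Pool.Agent.Y697.MQ.Pr_iff (-D)).2 hPr)
  have hnorm : D.norm.natAbs = (∏ x ∈ Q, x.norm.natAbs) * (e.norm.natAbs * e.norm.natAbs) := by
    rw [← Zsqrtd.norm_neg, hge, Zsqrtd.norm_mul, Int.natAbs_mul, norm_pi, pow_two,
      Zsqrtd.norm_mul, Int.natAbs_mul]
  have he1 : e = 1 := by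
    apply he.unit
    have h3 : IsUnit e.norm.natAbs := h2 _ ⟨∏ x ∈ Q, x.norm.natAbs, by rw [hnorm]; ring⟩
    exact Zsqrtd.norm_eq_one_iff.1 (Nat.isUnit_iff.1 h3)
  rw [he1, one_pow, mul_one] at hge
  have hnorm' : D.norm.natAbs = ∏ x ∈ Q, x.norm.natAbs := by
    rw [hnorm, he1]
    have e1 : (1 : GaussianInt).norm.natAbs = 1 := rfl
    rw [e1, mul_one, mul_one]
  rw [hnorm'] at h2
  have hO : ∀ x ∈ Q, OP x := fun x hx => (hQ x hx).1
  have hpr : ∀ x ∈ Q, (x.norm.natAbs).Prime := by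
    intro x hx
    obtain ⟨q, hq, -, h3 | h3⟩ := Pool.Agent.Y697.MQ.types (hO x hx)
    · rw [h3.2]
      exact hq
    · exfalso
      have h4 : q * q ∣ ∏ x ∈ Q, x.norm.natAbs := by
        rw [← pow_two, ← h3.2.2]
        exact dvd_prod_of_mem _ hx
      exact hq.one_lt.ne' (Nat.isUnit_iff.1 (h2 q h4))
  have hinj : Set.InjOn (fun x : GaussianInt => x.norm.natAbs) Q := by
    intro x hx y hy hxy
    by_contra hne
    simp only at hxy
    have h4 : x.norm.natAbs * x.norm.natAbs ∣ ∏ x ∈ Q, x.norm.natAbs := by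
      rw [← mul_prod_erase Q _ hx]
      refine mul_dvd_mul (dvd_refl _) ?_
      rw [hxy]
      exact dvd_prod_of_mem (fun x : GaussianInt => x.norm.natAbs)
        (mem_erase.2 ⟨fun h => hne h.symm, hy⟩)
    exact (hpr x hx).one_lt.ne' (Nat.isUnit_iff.1 (h2 _ h4))
  have hodd : ∀ x ∈ Q, x.norm.natAbs ≠ 2 := by
    intro x hx h
    have h4 := (Pr_iff2 x).1 (hO x hx).pm
    have h5 : x.norm = x.re * x.re + x.im * x.im := by rw [Zsqrtd.norm_def]; ring
    have h6 : Odd x.norm.natAbs := by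
      rw [Int.natAbs_odd, h5]
      have h7 : Odd x.re := by
        rw [Int.odd_iff]
        omega
      have h8 : Even x.im := Int.even_iff.2 h4.1
      exact (h7.mul h7).add_even (h8.mul_right _)
    rw [h] at h6
    exact absurd h6 (by decide)
  refine ⟨Q, hO, by rw [← hge, neg_neg], hpr, hodd, hinj, ?_⟩
  have h3 : (∏ x ∈ Q, x.norm.natAbs).primeFactors = Q.image fun x => x.norm.natAbs := by
    ext p
    rw [Nat.mem_primeFactors, mem_image]
    constructor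
    · rintro ⟨hp, hpd, -⟩
      obtain ⟨x, hx, hpx⟩ := (Prime.dvd_finsetProd_iff hp.prime _).1 hpd
      exact ⟨x, hx, ((Nat.prime_dvd_prime_iff_eq hp (hpr x hx)).1 hpx).symm⟩
    · rintro ⟨x, hx, rfl⟩
      exact ⟨hpr x hx, dvd_prod_of_mem _ hx, h2.ne_zero⟩
  unfold om
  rw [hnorm', h3, card_image_of_injOn hinj]

/-- the diagonal -/
theorem diag {Q : Finset GaussianInt} (hQ : ∀ x ∈ Q, OP x)
    {x y : GaussianInt} (hx : Prime x) (hx' : Primary x) (hxy : -∏ x ∈ Q, x = x * y)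
    (hs : symbol x y = -1) : ∃ x₀ ∈ Q, ∀ (s : ℕ) (e : Fin s ≃ (Q.erase x₀ : Finset GaussianInt)),
      ∃ i, Mx0 e i i = 1 := by
  classical
  have hO : OP x := (op_iff x).2 ⟨hx, hx'⟩
  have hxQ : x ∈ Q := by
    have h1 : x ∣ ∏ x ∈ Q, x := (dvd_neg).1 ⟨y, hxy⟩
    obtain ⟨z, hz, hxz⟩ := (Prime.dvd_finsetProd_iff hx _).1 h1
    rw [hO.dvd (hQ z hz) hxz]
    exact hz
  have hy : y = -∏ z ∈ Q.erase x, z := by
    apply mul_left_cancel₀ hx.ne_zero
    rw [← hxy, ← mul_prod_erase Q (fun z => z) hxQ]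
    ring
  obtain ⟨h1, h2⟩ := row_sum0 (Q := Q.erase x) (fun z hz => hQ z (mem_of_mem_erase hz)) hO
    (notMem_erase x Q)
  rw [symbol_eq, hy, leg_neg_right hx] at hs
  have hne : (Q.erase x).Nonempty := by
    rw [Finset.nonempty_iff_ne_empty]
    intro h
    rw [h, prod_empty, leg_one hx] at hs
    norm_num at hs
  obtain ⟨x₀, hx₀⟩ := hne
  refine ⟨x₀, mem_of_mem_erase hx₀, fun s e => ?_⟩
  have hxe : x ∈ Q.erase x₀ := mem_erase.2 ⟨fun h => (mem_erase.1 hx₀).1 h.symm, hxQ⟩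
  refine ⟨e.symm ⟨x, hxe⟩, ?_⟩
  unfold Mx0 Lp
  rw [if_pos rfl]
  simp only [Equiv.apply_symm_apply]
  have h3 : ∑ j ∈ univ.erase (e.symm ⟨x, hxe⟩), gA x (e j) = ∑ z ∈ (Q.erase x).erase x₀, gA x z := by
    refine sum_bij (fun j _ => (e j : GaussianInt)) ?_ ?_ ?_ ?_
    · intro j hj
      refine mem_erase.2 ⟨(mem_erase.1 (e j).2).1, mem_erase.2
        ⟨fun h => (mem_erase.1 hj).1 ?_, mem_of_mem_erase (e j).2⟩⟩
      rw [← e.symm_apply_apply j]
      congr 1
      exact Subtype.ext h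
    · intro j _ k _ h
      exact e.injective (Subtype.ext h)
    · intro z hz
      have hz1 : z ∈ Q.erase x₀ := mem_erase.2 ⟨(mem_erase.1 hz).1, mem_of_mem_erase (mem_of_mem_erase hz)⟩
      refine ⟨e.symm ⟨z, hz1⟩, ?_, by rw [Equiv.apply_symm_apply]⟩
      refine mem_erase.2 ⟨fun h => ?_, mem_univ _⟩
      have h4 := e.symm.injective h
      exact (mem_erase.1 (mem_of_mem_erase hz)).1 (congrArg Subtype.val h4)
    · intro j _
      rfl
  rw [h3, add_sum_erase (Q.erase x) (fun z => gA x z) hx₀, h1, hs]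
  rfl

open Classical in
theorem summ (S : Set ℕ) {x : ℝ} (hx : 1 < x) :
    Summable fun n : ℕ => if n ∈ S then (n : ℝ) ^ (-x) else 0 := by
  refine Summable.of_nonneg_of_le (fun n => ?_) (fun n => ?_)
    (Real.summable_nat_rpow.2 (show -x < -1 by linarith))
  · split_ifs
    · exact Real.rpow_nonneg (Nat.cast_nonneg _) _
    · exact le_refl _
  · split_ifs
    · exact le_refl _
    · exact Real.rpow_nonneg (Nat.cast_nonneg _) _

theorem series_mono {S T : Set ℕ} (h : S ⊆ T) {x : ℝ} (hx : 1 < x) : series S x ≤ series T x := by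
  classical
  refine (summ S hx).tsum_le_tsum (fun n => ?_) (summ T hx)
  by_cases h1 : n ∈ S
  · rw [if_pos h1, if_pos (h h1)]
  · rw [if_neg h1]
    split_ifs
    · exact Real.rpow_nonneg (Nat.cast_nonneg _) _
    · exact le_refl _

/-- the norm is not a square -/
theorem not_sq_norm {D : GaussianInt} (h2 : Squarefree D.norm.natAbs) {l : ℕ} (hl : l.Prime)
    (hld : l ∣ D.norm.natAbs) : ¬ IsSquare D.norm := by
  rintro ⟨z, hz⟩
  have h3 : D.norm.natAbs = z.natAbs * z.natAbs := by rw [hz, Int.natAbs_mul]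
  have h4 : IsUnit z.natAbs := h2 _ (by rw [h3])
  rw [h3, Nat.isUnit_iff.1 h4] at hld
  exact hl.one_lt.ne' (Nat.dvd_one.1 hld)

open Classical in
/-- **The density.** -/
theorem density (hrep : S_REP4) (hdim : S_DIM4) (hr1 : S_R1M) (hlm : S_LM)
    (hsch : S_SCH) (halt : S_ALT) (hden : S_DEN)
    (hdir : S_DIR) {D : GaussianInt} (h1 : (4 : GaussianInt) ∣ D - ⟨1, 2⟩)
    (h2 : Squarefree D.norm.natAbs)
    (h3 : Odd (om D) ∨ ∃ x y : GaussianInt, Prime x ∧ Primary x ∧ D = x * y ∧ symbol x y = -1)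
    {c : ℝ} (hc : c < proportion ((om D - 1) / 2)) : ∀ᶠ x : ℝ in 𝓝[>] 1,
      c * series (Ord8 D) x ≤
        series {d | d ∈ Ord8 D ∧ ∀ g : GaussianInt, Primary g → g ∣ D → Rule4 d D g} x := by
  obtain ⟨Q, hQ, hD, hN, hN2, hNi, hcard⟩ := decomp h1 h2
  rw [← hcard] at hc h3
  obtain ⟨x₀, hx₀, hM'⟩ : ∃ x₀ ∈ Q, (∀ (s : ℕ) (e : Fin s ≃ (Q.erase x₀ : Finset GaussianInt)),
      ∃ i, Mx0 e i i = 1) ∨ Odd Q.card := by
    rcases h3 with h3 | ⟨x, y, hx, hx', hxy, hsy⟩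
    · have h4 : Q.Nonempty := by
        rw [← Finset.card_pos]
        exact h3.pos
      obtain ⟨x₀, hx₀⟩ := h4
      exact ⟨x₀, hx₀, Or.inr h3⟩
    · rw [hD] at hxy
      obtain ⟨x₀, hx₀, h4⟩ := diag hQ hx hx' hxy hsy
      exact ⟨x₀, hx₀, Or.inl h4⟩
  have hs0 : (Q.erase x₀).card = Q.card - 1 := card_erase_of_mem hx₀
  set s := (Q.erase x₀).card with hs
  have e : Fin s ≃ (Q.erase x₀ : Finset GaussianInt) := ((Q.erase x₀).equivFin).symm
  rw [← hs0] at hc
  have hM : (∃ i, Mx0 e i i = 1) ∨ Even s := by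
    rcases hM' with h4 | h4
    · exact Or.inl (h4 s e)
    · right
      rw [hs0]
      exact Nat.Odd.sub_odd h4 odd_one
  have heQ : ∀ v : Fin s, (e v : GaussianInt) ∈ Q := fun v => mem_of_mem_erase (e v).2
  have hsym : ∀ i j, Mx0 e i j = Mx0 e j i := fun i j =>
    Lp_symm (fun x y => Pool.Agent.Helper35K9.TW.PP.gA_symm (hQ _ (heQ x)) (hQ _ (heQ y))) i j
  have hcount := halt s (Mx0 e) hsym hM
  set G : Finset (Prs s → ZMod 2) := univ.filter fun a => (Mx0 e + alt a).det ≠ 0 with hG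
  have hd := hden (P4 D) (Prs s) (bb0 e) (fun φ hφ => by
    rw [hD]
    exact nonsum0 hdir hQ hN hNi hx₀ e φ hφ)
  have hlD : x₀.norm.natAbs ∣ D.norm.natAbs := by
    rw [hD, Zsqrtd.norm_neg, norm_pi]
    exact dvd_prod_of_mem _ hx₀
  have hsumT : Tendsto (fun x : ℝ => ∑ v ∈ G,
      Z {d | d ∈ Dd (P4 D) ∧ ∑ p ∈ d.primeFactors, bb0 e p = v} x / Z (Dd (P4 D)) x) (𝓝[>] 1)
      (𝓝 (proportion (s / 2))) := by
    have h4 := tendsto_finsetSum G fun v _ => hd v
    have h5 : ∑ v ∈ G, (1 / 2 ^ Fintype.card (Prs s) : ℝ) = proportion (s / 2) := by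
      rw [sum_const, nsmul_eq_mul, hcount]
      have h6 : (2 : ℝ) ^ Fintype.card (Prs s) ≠ 0 := by positivity
      unfold piM proportion
      field_simp
    rw [h5] at h4
    exact h4
  have hDd : Dd (P4 D) = Ord8 D := rfl
  have hev := hsumT.eventually (lt_mem_nhds hc)
  have hev1 : ∀ᶠ x : ℝ in 𝓝[>] 1, 1 < x := eventually_mem_nhdsWithin
  filter_upwards [hev, hev1] with x hx hx1
  have hZ : ∀ S : Set ℕ, Z S x = series S x := fun S => rfl
  simp only [hDd, hZ] at hx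
  have hpos : 0 < series (Ord8 D) x := by
    have h4 : series {1} x ≤ series (Ord8 D) x := series_mono (by
      intro n hn
      rw [Set.mem_singleton_iff.1 hn]
      exact ⟨squarefree_one, fun p hp hp1 => absurd (Nat.dvd_one.1 hp1) hp.ne_one⟩) hx1
    have h5 : series {1} x = 1 := by
      unfold series
      rw [tsum_eq_single 1]
      · simp
      · intro n hn
        rw [if_neg (by simpa using hn)]
    linarith
  rw [← sum_div, lt_div_iff₀ hpos] at hx
  refine hx.le.trans ?_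
  have h6 : ∑ v ∈ G, series {d | d ∈ Ord8 D ∧ ∑ p ∈ d.primeFactors, bb0 e p = v} x =
      series {d | d ∈ Ord8 D ∧ ∑ p ∈ d.primeFactors, bb0 e p ∈ G} x := by
    unfold series
    rw [← Summable.tsum_finsetSum fun v _ => summ _ hx1]
    congr 1
    funext n
    by_cases h7 : n ∈ Ord8 D ∧ ∑ p ∈ n.primeFactors, bb0 e p ∈ G
    · rw [if_pos (show n ∈ {d | d ∈ Ord8 D ∧ ∑ p ∈ d.primeFactors, bb0 e p ∈ G} from h7),
        sum_eq_single (∑ p ∈ n.primeFactors, bb0 e p)]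
      · rw [if_pos ⟨h7.1, rfl⟩]
      · intro v _ hv
        rw [if_neg fun h => hv h.2.symm]
      · intro h
        exact absurd h7.2 h
    · rw [if_neg (show n ∉ {d | d ∈ Ord8 D ∧ ∑ p ∈ d.primeFactors, bb0 e p ∈ G} from h7)]
      refine sum_eq_zero fun v hv => ?_
      rw [if_neg]
      rintro ⟨h8, h9⟩
      exact h7 ⟨h8, by rw [h9]; exact hv⟩
  rw [h6]
  refine series_mono ?_ hx1
  rintro d ⟨h8, h9⟩
  exact ⟨h8, fun g hg hgD => rule_det4 hrep hdim hr1 hlm hsch hQ hD h1 h2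
    (not_sq_norm h2 (hN x₀ hx₀) hlD) hx₀ e h8.1 h8.2 (mem_filter.1 h9).2 hg hgD⟩

open Classical in
/-- there are many primes in `Ord8 D` -/
theorem many_primes (hdir : S_DIR) {D : GaussianInt} (h1 : (4 : GaussianInt) ∣ D - ⟨1, 2⟩)
    (h2 : Squarefree D.norm.natAbs) :
    ¬ Summable (fun p : ℕ => if p.Prime ∧ p ∈ Ord8 D then (1 / p : ℝ) else 0) := by
  obtain ⟨Q, hQ, hD, hN, hN2, hNi, -⟩ := decomp h1 h2
  have hQne : Q.Nonempty := by
    rw [Finset.nonempty_iff_ne_empty]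
    rintro rfl
    rw [prod_empty] at hD
    rw [hD, four_dvd] at h1
    have h3 := h1.2
    simp at h3
  obtain ⟨x₀, hx₀⟩ := hQne
  obtain ⟨q, a, hq, haq, hcl⟩ := cls hQ hN hNi {x₀}
  intro hsum
  apply hdir q a hq haq
  refine Summable.of_nonneg_of_le (fun p => by split_ifs <;> positivity) (fun p => ?_) hsum
  by_cases hp : p.Prime ∧ p ≡ a [MOD q]
  swap
  · rw [if_neg hp]
    split_ifs <;> positivity
  obtain ⟨h8, hx⟩ := hcl p hp.1 hp.2
  obtain ⟨hOP, -⟩ := Pool.Agent.Helper35K9.LW.Rep.inert_OP hp.1 h8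
  have hnot : -(p : GaussianInt) ∉ Q := by
    intro h
    have h3 := hx _ h
    rw [leg_eq_zero.2 (dvd_refl _)] at h3
    split_ifs at h3 <;> norm_num at h3
  have hgA : ∀ x ∈ Q, gA (-(p : GaussianInt)) x = if x = x₀ then 1 else 0 := by
    intro x hxQ
    rw [gA_lg, hx x hxQ]
    simp only [mem_singleton]
    split_ifs <;> rfl
  have hmem : p ∈ Ord8 D := by
    refine ⟨hp.1.squarefree, fun r hr hrp => ?_⟩
    rw [(Nat.prime_dvd_prime_iff_eq hr hp.1).1 hrp]
    refine ⟨by omega, ?_⟩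
    rw [symbol_eq, ← leg_neg_left, hD, leg_neg_right hOP.pr]
    obtain ⟨h3, h4⟩ := row_sum0 hQ hOP hnot
    rw [← lg_inj h4, ← h3, sum_congr rfl hgA, sum_ite_eq' Q x₀, if_pos hx₀]
  rw [if_pos hp, if_pos ⟨hp.1, hmem⟩]

end proof

end Pool.Agent.Helper35K9.NQ
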