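import Pool.Agent.Helper35K9.LW.Df

/-!
# Representations containing a quartic character of `ℚ(i)`: definitions and three leaves

The definitions for the hand-in at MP_775b3b_nt (non-self-dual representations), and the statements of the
leaves REP4, DIM4 and NSD4. Mathlib only (through `LW/Df.lean`).
-/

set_option autoImplicit false

namespace Pool.Agent.Helper35K9.NQ

open Pool.Agent.Helper35K9.LW.Rep

/-- The primes `p` of `ℤ[i]` with `p ≡ 1 mod 2 + 2 i`: one generator for each prime ideal prime to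
`1 + i`. -/
def PrimaryPrime : Type := {p : GaussianInt // Prime p ∧ Primary p}

open Classical in
/-- The quartic residue symbol `(α / p)₄` for a prime `p` of `ℤ[i]` prime to `1 + i`: the fourth root of
unity `u` with `u ≡ α ^ ((N(p) - 1) / 4)` modulo `p`, and `0` if `p` divides `α` (there is no such
`u`). -/
noncomputable def symbol4 (p α : GaussianInt) : ℂ :=
  if h : ∃ u : GaussianInt, u ^ 4 = 1 ∧ p ∣ α ^ ((p.norm.natAbs - 1) / 4) - u then
    ((Classical.choose h : GaussianInt) : ℂ) else 0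

/-- `χ_D(α) = (α / D)₄`: the product of the symbols `(α / p)₄` for the primes `p ≡ 1 mod 2 + 2 i` that
divide `D`. -/
noncomputable def chi (D α : GaussianInt) : ℂ :=
  ∏ᶠ (p : PrimaryPrime) (_ : p.1 ∣ D), symbol4 p.1 α

/-- `± d`, congruent to `1` modulo `4` (for odd `d`) -/
def star4 (d : ℕ) : ℤ := if d % 4 = 1 then (d : ℤ) else -(d : ℤ)

/-- the curve `y² = x³ - n x` over `ℚ` -/
def E4 (n : ℤ) : WeierstrassCurve ℚ := ⟨0, 0, 0, -(n : ℚ), 0⟩

/-- `ρ` contains the quartic character of `Gal(F/ℚ(i))` which belongs to a fourth root `r`: there is `v ≠ 0` such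
that every `σ` with `σ i = i` and `σ r = i ^ k r` acts on `v` by `i ^ k` (here `ℤ[i]` is embedded in `F`
by `ι`). -/
def Contains4 {F : Type} [Field F] [NumberField F] (ι : GaussianInt →+* F) (r : F)
    {V : Type} [AddCommGroup V] [Module ℂ V] (ρ : (F ≃ₐ[ℚ] F) →* (V →ₗ[ℂ] V)) : Prop :=
  ∃ v : V, v ≠ 0 ∧ ∀ σ : F ≃ₐ[ℚ] F, σ (ι ⟨0, 1⟩) = ι ⟨0, 1⟩ →
    ∀ k : ℕ, σ r = (ι ⟨0, 1⟩) ^ k * r → ρ σ v = Complex.I ^ k • v

/-- `ρ` is not self-dual: the only invariant bilinear form is zero -/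
def NotSelfDual {G V : Type} [Group G] [AddCommGroup V] [Module ℂ V] (ρ : G →* (V →ₗ[ℂ] V)) : Prop :=
  ∀ B : V →ₗ[ℂ] V →ₗ[ℂ] ℂ, (∀ g v w, B (ρ g v) (ρ g w) = B v w) → B = 0

/-- The function `L(E, ρ, s)` for `E : y² = x³ - n x`, `n = star4 d`, and the representation `ρ` induced by the
quartic character of `(D g²)^(1/4)` (Euler product over the primes `p ≡ 1 mod 2 + 2i` of `ℤ[i]`; the factor is
`1` if `p` divides `n D`) has an entire continuation `L` with `L(1) ≠ 0`. -/
def NonvanishingAtOne4 (d : ℕ) (D g : GaussianInt) : Prop := ∃ L : ℂ → ℂ, Differentiable ℂ L ∧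
  (∀ s : ℂ, 3 / 2 < s.re → HasProd (fun p : PrimaryPrime =>
    ((1 - (starRingEnd ℂ) (chi d p.1) * (chi D p.1 * chi g p.1 ^ 2) * (p.1 : ℂ) *
        ((p.1.norm : ℤ) : ℂ) ^ (-s)) *
      (1 - chi d p.1 * (chi D p.1 * chi g p.1 ^ 2) * (starRingEnd ℂ) (p.1 : ℂ) *
        ((p.1.norm : ℤ) : ℂ) ^ (-s)))⁻¹) (L s)) ∧ L 1 ≠ 0

/-- The rule for the curve `y² = x³ - n x`, `n = star4 d`, and the irreducible representations which contain the
character of `(D g²)^(1/4)`: they have dimension two, are not self-dual, and do not occur in `ℂ ⊗ E(F)`, for all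
`F`; and the `L`-function is entire and not zero at `s = 1`. -/
def Rule4 (d : ℕ) (D g : GaussianInt) : Prop := NonvanishingAtOne4 d D g ∧
  ∀ (F : Type) [Field F] [NumberField F] [IsGalois ℚ F] (ι : GaussianInt →+* F) (r : F),
    r ^ 4 = ι (D * g ^ 2) → ∀ (V : Type) [AddCommGroup V] [Module ℂ V]
      (ρ : (F ≃ₐ[ℚ] F) →* (V →ₗ[ℂ] V)), IsIrr ρ → Contains4 ι r ρ →
        Module.finrank ℂ V = 2 ∧ NotSelfDual ρ ∧ mult F (E4 (star4 d)) ρ = 0

/-- the curve `y² = x³ - c x` has finitely many points over `K = ℚ(i)` -/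
def FinC (c : GaussianInt) : Prop :=
  {P : FractionRing GaussianInt × FractionRing GaussianInt |
    P.2 ^ 2 = P.1 ^ 3 - algebraMap GaussianInt (FractionRing GaussianInt) c * P.1}.Finite

/-- REP4. If `y² = x³ - n D x` and `y² = x³ - n D³ x` have finitely many points over `K = ℚ(i)`, the
representations of `Gal(F/ℚ)` containing `χ_D` do not occur in `ℂ ⊗ E_n(F)`, `E_n : y² = x³ - n x`.

Proof (compare `LW/Rep.lean`, the quadratic case; its lemmas `emb`, `exists_of_fixed`, `mp`, `tm`, ... can be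
used). Let `H = {σ : σ i = i}`, `ζ = ι i`. For `σ ∈ H`: `(σ r)⁴ = r⁴`, so `σ r = ζ^k r`, `k = k(σ)` modulo `4`
(`r ≠ 0`). `J (x, y) = (- x, ζ y)` is an endomorphism of the group `E_n(F)` (an automorphism of the curve: e.g.
via `WeierstrassCurve` variable changes, or check the addition law on `Affine.Point` directly: slope `ℓ ↦ ζ⁻¹·(-1)..`,
or write `J` with Mathlib's map on points), with `J² = -1`, commuting with the `σ ∈ H`. Let `f ∈ HomG`, `v` as in
`Contains4`, `w = f v`: `act σ w = I^k w` for `σ ∈ H`. Put `w± = w ∓ I (J w)` (`J` extended to `ℂ ⊗ E_n(F)`): `J w± = ± I w±`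
and `act σ w± = I^k w±`, `2 w = w₊ + w₋`. So `act σ w₊ = J^k w₊`, i.e. `J^(-k) act σ w₊ = w₊`, and
`J^k act σ w₋ = w₋`. Sum over `H`: `|H| w₊ = T₊ w₊`, `T₊ = ∑_(σ ∈ H) J^(-k) act σ`, the extension of
`π₊ P = ∑ J^(-k) σ(P)` on `E_n(F)`. For `Q = π₊ P = (x, y)`: `σ Q = J^k Q` for `σ ∈ H`: `σ x = (-1)^k x`,
`σ y = ζ^k y`, so `x r²` and `y r³` are fixed by `H`, they come from `K` (`exists_of_fixed`) and satisfy
`Y² = X³ - n D X` (as `r⁴ = D`). For `Q = π₋ P`: `σ x = (-1)^k x`, `σ y = ζ^(-k) y`: `X = x r⁶`, `Y = y r⁹` are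
in `K` and `Y² = X³ - n D³ X`. So the images of `π₊` and `π₋` are finite subgroups, every element is torsion, and
`T± = 0` on `ℂ ⊗ E_n(F)` (`c ⊗ Q = (c/N) ⊗ N Q = 0`). So `w = 0`. The kernel of `f` is stable and contains `v`,
so `f = 0`.
(If the automorphism `J` of the group of points is painful: it is enough to have the additive map `J`; its
additivity follows from the formulas for `slope` and `addX, addY` by cases, `Affine.Point.add_some` etc., or
from `Affine.Point.map` for the variable change `u = ζ`: Mathlib may have `WeierstrassCurve.Affine.Point` maps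
under `VariableChange`.) -/
def S_REP4 : Prop := ∀ (n : ℤ) (D : GaussianInt), n ≠ 0 → D ≠ 0 → FinC ((n : GaussianInt) * D) →
  FinC ((n : GaussianInt) * D ^ 3) →
  ∀ (F : Type) [Field F] [NumberField F] [IsGalois ℚ F] (ι : GaussianInt →+* F) (r : F),
    r ^ 4 = ι D → ∀ (V : Type) [AddCommGroup V] [Module ℂ V] (ρ : (F ≃ₐ[ℚ] F) →* (V →ₗ[ℂ] V)),
      IsIrr ρ → Contains4 ι r ρ → mult F (E4 n) ρ = 0

/-- DIM4. The irreducible representations containing `χ_D` have dimension two if `N(D)` is not a square.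

Proof: as `LW/Dim.lean` (`DimL`: `exists_tau`, `conj_H`, `mul_H`, `rational_of_fixed`, ...). `V` is spanned by `v` and
`w = ρ τ v`. If they are dependent, `χ (τ⁻¹ σ τ) = χ σ` for `σ ∈ H`; with `s = τ r` (`s⁴ = ι (conj D)`) and
`σ s = τ (ζ^k' r) = ζ^(-k') s`, `k' = k(τ⁻¹ σ τ) = k(σ)`, the product `r s` is fixed by `H`, `t = (r s)²` has
`t² = ι (D conj D) = N(D)`; as in `LW/Dim.lean` `N(D)` is a square. -/
def S_DIM4 : Prop := ∀ D : GaussianInt, D ≠ 0 → ¬ IsSquare D.norm →
  ∀ (F : Type) [Field F] [NumberField F] [IsGalois ℚ F] (ι : GaussianInt →+* F) (r : F),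
    r ^ 4 = ι D → ∀ (V : Type) [AddCommGroup V] [Module ℂ V] (ρ : (F ≃ₐ[ℚ] F) →* (V →ₗ[ℂ] V)),
      IsIrr ρ → Contains4 ι r ρ → Module.finrank ℂ V = 2

/-- NSD4. The irreducible representations containing `χ_D` are not self-dual if `N(D)` is squarefree and has
an odd prime factor.

Proof. `H`, `τ`, `v`, `w = ρ τ v`, `χ σ = I^k(σ)` as above; `V` is spanned by `v` and `w` (the span is stable), and
`ρ σ w = χ (τ⁻¹ σ τ) w` for `σ ∈ H`. Let `B` be invariant. `B v v = χ(σ)² B v v`: if it is not zero then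
`χ² = 1` on `H`, so `r²` is fixed by `H`, `D = (r²)²` is a square in `K`, hence in `ℤ[i]` up to nothing (integrally
closed), then `N(D)` is a square: no. (The same for `B w w`.) `B v w = χ(σ) χ(τ⁻¹ σ τ) B v w`: if it is not zero
then `χ(σ) χ(τ⁻¹ σ τ) = 1` on `H`, and with `s = τ r`, `σ s = ζ^(-k(τ⁻¹ σ τ)) s = ζ^(k(σ)) s`: `r / s` is fixed by `H`,
so `D / conj D` is a fourth power in `K`, `D b⁴ = conj D a⁴` in `ℤ[i]`; take a prime `π` of `ℤ[i]` over an odd prime
factor `l` of `N(D)` which divides `D`: `π` divides `D` exactly once and does not divide `conj D` (else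
`conj π ∣ D`, and `π` and `conj π` are not associated as `l` is odd and (N(D) squarefree) not inert, so
`l ∣ D`, `l² ∣ N(D)`), a contradiction modulo `4` for the multiplicity of `π`. (The same for `B w v`.) -/
def S_NSD4 : Prop := ∀ D : GaussianInt, Squarefree D.norm.natAbs → (∃ l : ℕ, l.Prime ∧ l ≠ 2 ∧ l ∣ D.norm.natAbs) →
  ∀ (F : Type) [Field F] [NumberField F] [IsGalois ℚ F] (ι : GaussianInt →+* F) (r : F),
    r ^ 4 = ι D → ∀ (V : Type) [AddCommGroup V] [Module ℂ V] (ρ : (F ≃ₐ[ℚ] F) →* (V →ₗ[ℂ] V)),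
      IsIrr ρ → Contains4 ι r ρ → NotSelfDual ρ

end Pool.Agent.Helper35K9.NQ
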