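import Pool.Agent.Helper35K9.NQ.Df
import Pool.Agent.Helper35K9.LW.Dim

/-!
# DIM4: the irreducible representations containing a quartic character have dimension two (helper56)
-/

set_option autoImplicit false

namespace Pool.Agent.Helper35K9.NQ

open Pool.Agent.Helper35K9.LW.Rep

namespace Dim4L

open DimL

variable {F : Type} [Field F] [NumberField F] (ι : GaussianInt →+* F)

omit [NumberField F] in
lemma I_four : I ι ^ 4 = 1 := by
  have h := I_sq ι
  calc I ι ^ 4 = (I ι ^ 2) ^ 2 := by ring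
    _ = 1 := by rw [h]; norm_num

lemma pow_mod4 {R : Type} [Monoid R] {x : R} (hx : x ^ 4 = 1) (k : ℕ) : x ^ k = x ^ (k % 4) := by
  conv_lhs => rw [← Nat.div_add_mod k 4, pow_add, pow_mul, hx, one_pow, one_mul]

lemma CI_mod {a b : ℕ} (h : Complex.I ^ a = Complex.I ^ b) : a % 4 = b % 4 := by
  have h4 : Complex.I ^ 4 = 1 := Complex.I_pow_four
  rw [pow_mod4 h4 a, pow_mod4 h4 b] at h
  have ha : a % 4 < 4 := Nat.mod_lt _ (by norm_num)
  have hb : b % 4 < 4 := Nat.mod_lt _ (by norm_num)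
  generalize a % 4 = x at h ha
  generalize b % 4 = y at h hb
  interval_cases x <;> interval_cases y <;>
    first
    | rfl
    | (exfalso
       simp [pow_succ, Complex.ext_iff] at h
       try norm_num at h)

lemma I_pow_eq {a b : ℕ} (h : Complex.I ^ a = Complex.I ^ b) : I ι ^ a = I ι ^ b := by
  rw [pow_mod4 (I_four ι) a, pow_mod4 (I_four ι) b, CI_mod h]

omit [NumberField F] in
lemma exists_k {x r : F} (h : x ^ 4 = r ^ 4) : ∃ k : ℕ, x = I ι ^ k * r := by
  have h1 : (x - r) * ((x + r) * ((x - I ι * r) * (x + I ι * r))) = 0 := by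
    have h2 : (x - I ι * r) * (x + I ι * r) = x ^ 2 + r ^ 2 := by
      have := I_sq ι
      calc (x - I ι * r) * (x + I ι * r) = x ^ 2 - (I ι ^ 2) * r ^ 2 := by ring
        _ = x ^ 2 + r ^ 2 := by rw [this]; ring
    rw [h2]
    calc (x - r) * ((x + r) * (x ^ 2 + r ^ 2)) = x ^ 4 - r ^ 4 := by ring
      _ = 0 := by rw [h, sub_self]
  rcases mul_eq_zero.1 h1 with h | h
  · exact ⟨0, by rw [pow_zero, one_mul]; exact sub_eq_zero.1 h⟩
  rcases mul_eq_zero.1 h with h | h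
  · refine ⟨2, ?_⟩
    rw [I_sq, neg_one_mul]
    exact eq_neg_of_add_eq_zero_left h
  rcases mul_eq_zero.1 h with h | h
  · exact ⟨1, by rw [pow_one]; exact sub_eq_zero.1 h⟩
  · refine ⟨3, ?_⟩
    have h3 : I ι ^ 3 = - I ι := by
      calc I ι ^ 3 = I ι ^ 2 * I ι := by ring
        _ = - I ι := by rw [I_sq]; ring
    rw [h3, neg_mul]
    exact eq_neg_of_add_eq_zero_left h

lemma exists_kσ {D : GaussianInt} {r : F} (hr : r ^ 4 = ι D) {σ : F ≃ₐ[ℚ] F}
    (hσ : σ (I ι) = I ι) : ∃ k : ℕ, σ r = I ι ^ k * r := by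
  refine exists_k ι ?_
  rw [← map_pow, hr, fix_iota ι hσ]

section rep

variable {V : Type} [AddCommGroup V] [Module ℂ V] (ρ : (F ≃ₐ[ℚ] F) →* (V →ₗ[ℂ] V))

lemma rmul (a b : F ≃ₐ[ℚ] F) (u : V) : ρ (a * b) u = ρ a (ρ b u) := by
  rw [map_mul]; rfl

lemma rconj (τ σ : F ≃ₐ[ℚ] F) (v : V) : ρ σ (ρ τ v) = ρ τ (ρ (τ⁻¹ * σ * τ) v) := by
  rw [← rmul, ← rmul]
  congr 2
  group

lemma rinv (τ σ : F ≃ₐ[ℚ] F) (v : V) : ρ σ v = ρ τ (ρ (τ⁻¹ * σ) v) := by
  rw [← rmul]
  congr 2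
  group

/-- the span of `v` and `ρ τ v` is everything -/
lemma span_top {D : GaussianInt} {r : F} (hr : r ^ 4 = ι D) (hirr : IsIrr ρ) {v : V} (hv0 : v ≠ 0)
    (hv : ∀ σ : F ≃ₐ[ℚ] F, σ (I ι) = I ι → ∀ k : ℕ, σ r = I ι ^ k * r →
      ρ σ v = Complex.I ^ k • v) {τ : F ≃ₐ[ℚ] F} (hτ : τ (I ι) = - I ι) :
    Submodule.span ℂ (Set.range ![v, ρ τ v]) = ⊤ := by
  set w : V := ρ τ v with hw
  have hvm : v ∈ Submodule.span ℂ (Set.range ![v, w]) := Submodule.subset_span ⟨0, rfl⟩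
  have hwm : w ∈ Submodule.span ℂ (Set.range ![v, w]) := Submodule.subset_span ⟨1, rfl⟩
  have hsc : ∀ σ : F ≃ₐ[ℚ] F, σ (I ι) = I ι → ∃ k : ℕ, ρ σ v = Complex.I ^ k • v := by
    intro σ hσ
    obtain ⟨k, hk⟩ := exists_kσ ι hr hσ
    exact ⟨k, hv σ hσ k hk⟩
  have hstab : ∀ g, ∀ u ∈ Submodule.span ℂ (Set.range ![v, w]),
      ρ g u ∈ Submodule.span ℂ (Set.range ![v, w]) := by
    intro g
    have key : ρ g v ∈ Submodule.span ℂ (Set.range ![v, w]) ∧
        ρ g w ∈ Submodule.span ℂ (Set.range ![v, w]) := by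
      rcases I_pm ι g with h | h
      · constructor
        · obtain ⟨k, hk⟩ := hsc g h
          rw [hk]
          exact Submodule.smul_mem _ _ hvm
        · obtain ⟨k, hk⟩ := hsc _ (conj_H ι hτ h)
          rw [hw, rconj ρ τ g v, hk, map_smul]
          exact Submodule.smul_mem _ _ hwm
      · constructor
        · obtain ⟨k, hk⟩ := hsc _ (inv_mul_H ι hτ h)
          rw [rinv ρ τ g v, hk, map_smul]
          exact Submodule.smul_mem _ _ hwm
        · obtain ⟨k, hk⟩ := hsc _ (mul_H ι hτ h)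
          rw [hw, ← rmul, hk]
          exact Submodule.smul_mem _ _ hvm
    intro u hu
    induction hu using Submodule.span_induction with
    | mem x hx =>
      obtain ⟨j, rfl⟩ := hx
      fin_cases j
      · exact key.1
      · exact key.2
    | zero => rw [map_zero]; exact Submodule.zero_mem _
    | add x y _ _ hx hy => rw [map_add]; exact Submodule.add_mem _ hx hy
    | smul a x _ hx => rw [map_smul]; exact Submodule.smul_mem _ _ hx
  rcases hirr.2 _ hstab with h | h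
  · exfalso
    apply hv0
    rw [h] at hvm
    exact (Submodule.mem_bot ℂ).mp hvm
  · exact h

lemma w_ne {v : V} (hv0 : v ≠ 0) (τ : F ≃ₐ[ℚ] F) : ρ τ v ≠ 0 := by
  intro h
  apply hv0
  have : ρ (τ⁻¹ * τ) v = ρ τ⁻¹ (ρ τ v) := rmul ρ _ _ _
  rw [inv_mul_cancel, h, map_zero, map_one] at this
  exact this

end rep

/-- the action on `τ r` -/
lemma sig_tau {τ σ : F ≃ₐ[ℚ] F} (hτ : τ (I ι) = - I ι) {r : F} {k : ℕ}
    (hk : (τ⁻¹ * σ * τ) r = I ι ^ k * r) : σ (τ r) = (- I ι) ^ k * τ r := by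
  have hστ : σ (τ r) = τ ((τ⁻¹ * σ * τ) r) := by
    rw [← AlgEquiv.mul_apply, ← AlgEquiv.mul_apply]
    congr 1
    group
  rw [hστ, hk, map_mul, map_pow, hτ]

/-- `N(D)` is the square of a rational number if there is an element fixed by `H` with the fourth
power... (here: `t` fixed by `H`, `t ^ 2 = N(D)`) -/
lemma isSquare_of [IsGalois ℚ F] {τ : F ≃ₐ[ℚ] F} (hτ : τ (I ι) = - I ι) {D : GaussianInt}
    (hD : D ≠ 0) {t : F} (hfix : ∀ σ : F ≃ₐ[ℚ] F, σ (I ι) = I ι → σ t = t)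
    (ht2' : t ^ 2 = (D.norm : F)) : IsSquare D.norm := by
  have hNpos : 0 < D.norm := by
    rw [GaussianInt.norm_pos]; exact hD
  have hcases : τ t = t ∨ τ t = - t := by
    have h : (τ t) ^ 2 = t ^ 2 := by
      rw [← map_pow, ht2', map_intCast]
    exact sq_eq_sq_iff_eq_or_eq_neg.mp h
  rcases hcases with h | h
  · obtain ⟨q, hq⟩ := rational_of_fixed ι hτ hfix h
    have hqq : ((q ^ 2 : ℚ) : F) = ((D.norm : ℚ) : F) := by
      push_cast
      rw [← hq, ht2']
    have hq2 : q ^ 2 = (D.norm : ℚ) := by exact_mod_cast hqq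
    have hsqQ : IsSquare ((D.norm : ℤ) : ℚ) := ⟨q, by rw [← hq2, sq]⟩
    rw [Rat.isSquare_intCast_iff] at hsqQ
    exact hsqQ
  · have h1 : τ (t * I ι) = t * I ι := by
      rw [map_mul, h, hτ]; ring
    have h2 : ∀ σ : F ≃ₐ[ℚ] F, σ (I ι) = I ι → σ (t * I ι) = t * I ι := by
      intro σ hσ
      rw [map_mul, hfix σ hσ, hσ]
    obtain ⟨q, hq⟩ := rational_of_fixed ι hτ h2 h1
    have hqq : ((q ^ 2 : ℚ) : F) = ((-(D.norm : ℚ) : ℚ) : F) := by
      push_cast
      rw [← hq, mul_pow, ht2', I_sq]; ring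
    have hq2 : q ^ 2 = -(D.norm : ℚ) := by exact_mod_cast hqq
    have : (0 : ℚ) < (D.norm : ℚ) := by exact_mod_cast hNpos
    nlinarith [sq_nonneg q]

lemma norm_eq {τ : F ≃ₐ[ℚ] F} (hτ : τ (I ι) = - I ι) (D : GaussianInt) :
    ι D * τ (ι D) = (D.norm : F) := by
  rw [star_iota ι hτ, ← map_mul, ← Zsqrtd.norm_eq_mul_conj, map_intCast]

end Dim4L

open DimL Dim4L in
theorem dim4 : S_DIM4 := by
  intro D hD hsq F _ _ _ ι r hr V _ _ ρ hirr hcon
  obtain ⟨v, hv0, hv⟩ := hcon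
  obtain ⟨τ, hτ⟩ := exists_tau ι
  have hv' : ∀ σ : F ≃ₐ[ℚ] F, σ (I ι) = I ι → ∀ k : ℕ, σ r = I ι ^ k * r →
      ρ σ v = Complex.I ^ k • v := hv
  have htop := span_top ι ρ hr hirr hv0 hv' hτ
  have hwne := w_ne ρ hv0 τ
  set w : V := ρ τ v with hw
  have hli : LinearIndependent ℂ ![v, w] := by
    rw [LinearIndependent.pair_iff]
    intro a b hab
    by_cases hb : b = 0
    · subst hb
      rw [zero_smul, add_zero] at hab
      exact ⟨(smul_eq_zero.mp hab).resolve_right hv0, rfl⟩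
    exfalso
    have hwc : w = (-(b⁻¹ * a)) • v := by
      have h1 : b • w = -(a • v) := by
        rw [eq_neg_iff_add_eq_zero, add_comm]; exact hab
      have h2 : b⁻¹ • (b • w) = b⁻¹ • (-(a • v)) := by rw [h1]
      rw [smul_smul, inv_mul_cancel₀ hb, one_smul] at h2
      rw [h2, smul_neg, smul_smul, neg_smul]
    set c : ℂ := -(b⁻¹ * a) with hc
    have hfix : ∀ σ : F ≃ₐ[ℚ] F, σ (I ι) = I ι → σ (r * τ r) = r * τ r := by
      intro σ hσ
      obtain ⟨k, hk⟩ := exists_kσ ι hr hσ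
      obtain ⟨k', hk'⟩ := exists_kσ ι hr (conj_H ι hτ hσ)
      have h1 : ρ σ w = Complex.I ^ k • w := by
        rw [hwc, map_smul, hv' σ hσ k hk, smul_comm]
      have h2 : ρ σ w = Complex.I ^ k' • w := by
        rw [hw, rconj ρ τ σ v, hv' _ (conj_H ι hτ hσ) k' hk', map_smul]
      have h3 : Complex.I ^ k = Complex.I ^ k' := by
        have h4 : (Complex.I ^ k - Complex.I ^ k') • w = 0 := by
          rw [sub_smul, ← h1, ← h2, sub_self]
        exact sub_eq_zero.1 ((smul_eq_zero.mp h4).resolve_right hwne)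
      have h5 := I_pow_eq ι h3
      rw [map_mul, hk, sig_tau ι hτ hk']
      have h6 : I ι ^ k * (- I ι) ^ k' = 1 := by
        rw [h5, ← mul_pow]
        have : I ι * (- I ι) = 1 := by
          have := I_sq ι
          calc I ι * (- I ι) = - (I ι ^ 2) := by ring
            _ = 1 := by rw [this]; ring
        rw [this, one_pow]
      calc I ι ^ k * r * ((- I ι) ^ k' * τ r) = (I ι ^ k * (- I ι) ^ k') * (r * τ r) := by ring
        _ = r * τ r := by rw [h6, one_mul]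
    apply hsq
    refine isSquare_of ι hτ hD (t := (r * τ r) ^ 2) (fun σ hσ => by rw [map_pow, hfix σ hσ]) ?_
    calc ((r * τ r) ^ 2) ^ 2 = r ^ 4 * (τ r) ^ 4 := by ring
      _ = ι D * τ (ι D) := by rw [← map_pow, hr]
      _ = (D.norm : F) := norm_eq ι hτ D
  have h := finrank_span_eq_card hli
  rw [htop, finrank_top] at h
  simpa using h

end Pool.Agent.Helper35K9.NQ
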