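import Pool.Agent.Helper35K9.NQ.StmM
import Pool.Agent.Helper26K9.MX.Lv

/-!
# Leaf LM
-/

set_option autoImplicit false

open Finset

namespace Pool.Agent.Helper35K9.NQ

open Pool.Agent.Y690.PP Pool.Agent.Y690.PP.Fn Pool.Agent.Helper26K9.DN Pool.Agent.Helper26K9.QT

open Classical in
theorem lm : S_LM := by
  intro A hX hch C m a b hm hab
  obtain ⟨L, h1, h2, h3⟩ := Pool.Agent.Helper26K9.MX.lvM (B := A.filter fun q => q ∈ C) hX hch
    (Finset.filter_subset _ _) hm hab
  refine ⟨L, h1, fun s hs => ?_, h3⟩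
  have h4 : ∀ α : G, (∏ q ∈ A, if q ∈ C then (starRingEnd ℂ) (symb q.1 α) else symb q.1 α) =
      Pool.Agent.Helper26K9.MX.mx A (A.filter fun q => q ∈ C) α := by
    intro α
    unfold Pool.Agent.Helper26K9.MX.mx
    rw [Finset.prod_ite, mul_comm]
    congr 1
    refine Finset.prod_congr ?_ fun q _ => rfl
    ext q
    simp only [mem_filter, mem_sdiff, not_and]
    constructor
    · rintro ⟨h5, h6⟩
      exact ⟨h5, fun _ => h6⟩
    · rintro ⟨h5, h6⟩
      exact ⟨h5, h6 h5⟩
  simp only [h4]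
  exact h2 s hs

end Pool.Agent.Helper35K9.NQ
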