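import Pool.Agent.Helper35K9.NQ.Dim4

/-!
# NSD4: the irreducible representations containing a quartic character are not self-dual (helper56)
-/

set_option autoImplicit false

namespace Pool.Agent.Helper35K9.NQ

open Pool.Agent.Helper35K9.LW.Rep

namespace Nsd4L

open DimL Dim4L

section arith

/-- a Gaussian prime over `l` -/
lemma exists_pi {D : GaussianInt} (hsq : Squarefree D.norm.natAbs) {l : ℕ} (hl : l.Prime)
    (hl2 : l ≠ 2) (hlD : l ∣ D.norm.natAbs) :
    ∃ p : GaussianInt, Prime p ∧ p ∣ D ∧ ¬ p ∣ star D ∧ ¬ p ^ 2 ∣ D := by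
  have hD0 : D ≠ 0 := by
    rintro rfl
    simp at hsq
  -- a prime divisor `p` of `D` whose norm is divisible by `l`
  have key : ∀ (E : GaussianInt), E ≠ 0 → l ∣ E.norm.natAbs →
      ∃ p : GaussianInt, Prime p ∧ p ∣ E ∧ l ∣ p.norm.natAbs := by
    intro E
    induction E using UniqueFactorizationMonoid.induction_on_prime with
    | h₁ => intro h; exact absurd rfl h
    | h₂ x hx =>
      intro _ h
      have h1 : x.norm.natAbs = 1 := Zsqrtd.norm_eq_one_iff.2 hx
      rw [h1] at h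
      exact absurd (Nat.dvd_one.1 h) hl.ne_one
    | h₃ a q ha hq ih =>
      intro _ h
      rw [Zsqrtd.norm_mul, Int.natAbs_mul] at h
      rcases hl.dvd_mul.1 h with h1 | h1
      · exact ⟨q, hq, dvd_mul_right _ _, h1⟩
      · obtain ⟨p, hp1, hp2, hp3⟩ := ih ha h1
        exact ⟨p, hp1, hp2.mul_left _, hp3⟩
  obtain ⟨p, hp, hpD, hlp⟩ := key D hD0 hlD
  obtain ⟨D', rfl⟩ := hpD
  rw [Zsqrtd.norm_mul, Int.natAbs_mul] at hsq
  have hnl' : ¬ l ∣ D'.norm.natAbs := by
    intro h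
    have h2 : l * l ∣ p.norm.natAbs * D'.norm.natAbs := mul_dvd_mul hlp h
    exact hl.one_lt.ne' (Nat.isUnit_iff.1 (hsq l h2))
  have hpN : ∀ a : GaussianInt, p ∣ a → l ∣ a.norm.natAbs := by
    rintro a ⟨b, rfl⟩
    rw [Zsqrtd.norm_mul, Int.natAbs_mul]
    exact hlp.mul_right _
  have hstarN : ∀ a : GaussianInt, (star a).norm = a.norm := fun a => Zsqrtd.norm_conj a
  refine ⟨p, hp, dvd_mul_right _ _, ?_, ?_⟩
  · intro h
    rw [star_mul, ] at h
    rcases hp.dvd_or_dvd h with h1 | h1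
    · apply hnl'
      have := hpN _ h1
      rwa [hstarN] at this
    · -- `p ∣ star p`
      have h2 : p ∣ p + star p := dvd_add dvd_rfl h1
      have h3 : p ∣ p - star p := dvd_sub dvd_rfl h1
      have h4 : p + star p = ((2 * p.re : ℤ) : GaussianInt) := by
        apply Zsqrtd.ext <;> simp [two_mul]
      have h5 : (p - star p) * ⟨0, -1⟩ = ((2 * p.im : ℤ) : GaussianInt) := by
        apply Zsqrtd.ext <;> simp [two_mul]
      have h6 := hpN _ h2
      have h7 := hpN _ (h3.mul_right (⟨0, -1⟩ : GaussianInt))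
      rw [h4, Zsqrtd.norm_intCast, Int.natAbs_mul] at h6
      rw [h5, Zsqrtd.norm_intCast, Int.natAbs_mul] at h7
      have h8 : ∀ x : ℤ, l ∣ (2 * x).natAbs * (2 * x).natAbs → (l : ℤ) ∣ x := by
        intro x hx
        have h9 : l ∣ (2 * x).natAbs := (hl.dvd_mul.1 hx).elim id id
        rw [Int.natAbs_mul] at h9
        rcases hl.dvd_mul.1 h9 with h10 | h10
        · exfalso
          have : l ∣ 2 := by simpa using h10
          rcases (Nat.dvd_prime Nat.prime_two).1 this with h11 | h11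
          · exact hl.ne_one h11
          · exact hl2 h11
        · exact Int.natCast_dvd.2 h10
      obtain ⟨a, ha⟩ := h8 _ h6
      obtain ⟨b, hb⟩ := h8 _ h7
      have h9 : p.norm = (l : ℤ) * l * (a * a + b * b) := by
        rw [Zsqrtd.norm_def, ha, hb]
        ring
      have h10 : l * l ∣ p.norm.natAbs * D'.norm.natAbs := by
        refine Dvd.dvd.mul_right ?_ _
        rw [h9, Int.natAbs_mul, Int.natAbs_mul, Int.natAbs_natCast]
        exact dvd_mul_right _ _
      exact hl.one_lt.ne' (Nat.isUnit_iff.1 (hsq l h10))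
  · intro h
    rw [sq] at h
    have h1 : p ∣ D' := (mul_dvd_mul_iff_left hp.ne_zero).1 h
    exact hnl' (hpN _ h1)

/-- no fourth powers -/
lemma no_fourth {D : GaussianInt} (hsq : Squarefree D.norm.natAbs) {l : ℕ} (hl : l.Prime)
    (hl2 : l ≠ 2) (hlD : l ∣ D.norm.natAbs) {a b : GaussianInt} (hb : b ≠ 0)
    (h : D * b ^ 4 = star D * a ^ 4) : False := by
  have hD0 : D ≠ 0 := by
    rintro rfl
    simp at hsq
  obtain ⟨p, hp, hpD, hps, hp2⟩ := exists_pi hsq hl hl2 hlD
  have hs0 : star D ≠ 0 := by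
    intro h0
    apply hps
    rw [h0]
    exact dvd_zero _
  have ha : a ≠ 0 := by
    rintro rfl
    rw [zero_pow (by norm_num), mul_zero] at h
    rcases mul_eq_zero.1 h with h1 | h1
    · exact hD0 h1
    · exact pow_ne_zero 4 hb h1
  have hf : ∀ x : GaussianInt, x ≠ 0 → FiniteMultiplicity p x := fun x hx =>
    FiniteMultiplicity.of_prime_left hp hx
  have h1 := congrArg (multiplicity p) h
  rw [multiplicity_mul hp (hf _ (mul_ne_zero hD0 (pow_ne_zero 4 hb))),
    multiplicity_mul hp (hf _ (mul_ne_zero hs0 (pow_ne_zero 4 ha))),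
    (hf b hb).multiplicity_pow hp, (hf a ha).multiplicity_pow hp] at h1
  have h2 : multiplicity p D = 1 := by
    refine multiplicity_eq_of_dvd_of_not_dvd ?_ ?_
    · rw [pow_one]; exact hpD
    · exact hp2
  have h3 : multiplicity p (star D) = 0 := multiplicity_eq_zero.2 hps
  rw [h2, h3] at h1
  omega

end arith

variable {F : Type} [Field F] [NumberField F] (ι : GaussianInt →+* F)

lemma bil {V : Type} [AddCommGroup V] [Module ℂ V] (B : V →ₗ[ℂ] V →ₗ[ℂ] ℂ) (a b : ℂ) (x y : V) :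
    B (a • x) (b • y) = (a * b) * B x y := by
  rw [map_smul, LinearMap.map_smul₂, smul_eq_mul, smul_eq_mul]
  ring

lemma iota_inj : Function.Injective ι := by
  rw [injective_iff_map_eq_zero]
  intro z hz
  have h1 : ι (z * star z) = 0 := by rw [map_mul, hz, zero_mul]
  rw [← Zsqrtd.norm_eq_mul_conj, map_intCast] at h1
  have h2 : z.norm = 0 := by exact_mod_cast h1
  exact GaussianInt.norm_eq_zero.1 h2

/-- elements fixed by `H` are quotients -/
lemma exists_frac [IsGalois ℚ F] {τ : F ≃ₐ[ℚ] F} (hτ : τ (I ι) = - I ι) {u : F}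
    (hfix : ∀ σ : F ≃ₐ[ℚ] F, σ (I ι) = I ι → σ u = u) :
    ∃ (a b : GaussianInt), b ≠ 0 ∧ u * ι b = ι a := by
  have hττ : ∀ x : F, (∀ σ : F ≃ₐ[ℚ] F, σ (I ι) = I ι → σ x = x) → τ (τ x) = x := by
    intro x hx
    have := hx (τ * τ) (mul_H ι hτ hτ)
    rwa [AlgEquiv.mul_apply] at this
  have hfixτ : ∀ σ : F ≃ₐ[ℚ] F, σ (I ι) = I ι → σ (τ u) = τ u := by
    intro σ hσ
    have hστ : σ (τ u) = τ ((τ⁻¹ * σ * τ) u) := by
      rw [← AlgEquiv.mul_apply, ← AlgEquiv.mul_apply]
      congr 1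
      group
    rw [hστ, hfix _ (conj_H ι hτ hσ)]
  obtain ⟨q1, hq1⟩ := rational_of_fixed ι hτ (x := u + τ u)
    (fun σ hσ => by rw [map_add, hfix σ hσ, hfixτ σ hσ])
    (by rw [map_add, hττ u hfix, add_comm])
  obtain ⟨q2, hq2⟩ := rational_of_fixed ι hτ (x := (u - τ u) * I ι)
    (fun σ hσ => by rw [map_mul, map_sub, hfix σ hσ, hfixτ σ hσ, hσ])
    (by rw [map_mul, map_sub, hττ u hfix, hτ]; ring)
  -- `2 u = q1 - q2 I`
  have h2 : 2 * u = (q1 : F) - (q2 : F) * I ι := by
    rw [← hq1, ← hq2]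
    have := I_sq ι
    calc 2 * u = (u + τ u) + (u - τ u) := by ring
      _ = (u + τ u) - (u - τ u) * (I ι ^ 2) := by rw [this]; ring
      _ = _ := by ring
  refine ⟨⟨q1.num * q2.den, -(q2.num * q1.den)⟩, ((2 * (q1.den * q2.den) : ℕ) : GaussianInt), ?_, ?_⟩
  · have : (2 * (q1.den * q2.den) : ℕ) ≠ 0 := by
      have := q1.den_ne_zero
      have := q2.den_ne_zero
      positivity
    exact_mod_cast this
  · rw [map_natCast, iota_eq]
    have e1 : (q1 : F) * (q1.den : F) = (q1.num : F) := by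
      have := Rat.mul_den_eq_num q1
      exact_mod_cast congrArg (fun x : ℚ => (x : F)) this
    have e2 : (q2 : F) * (q2.den : F) = (q2.num : F) := by
      have := Rat.mul_den_eq_num q2
      exact_mod_cast congrArg (fun x : ℚ => (x : F)) this
    push_cast
    calc u * (2 * ((q1.den : F) * (q2.den : F))) = (2 * u) * ((q1.den : F) * (q2.den : F)) := by ring
      _ = ((q1 : F) * (q1.den : F)) * q2.den - ((q2 : F) * q2.den) * q1.den * I ι := by
        rw [h2]; ring
      _ = _ := by rw [e1, e2]; ring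

end Nsd4L

open DimL Dim4L Nsd4L in
theorem nsd4 : S_NSD4 := by
  intro D hsf hl F _ _ _ ι r hr V _ _ ρ hirr hcon
  obtain ⟨l, hl, hl2, hlD⟩ := hl
  obtain ⟨v, hv0, hv⟩ := hcon
  obtain ⟨τ, hτ⟩ := exists_tau ι
  have hD : D ≠ 0 := by
    rintro rfl
    simp at hsf
  have hv' : ∀ σ : F ≃ₐ[ℚ] F, σ (I ι) = I ι → ∀ k : ℕ, σ r = I ι ^ k * r →
      ρ σ v = Complex.I ^ k • v := hv
  have htop := span_top ι ρ hr hirr hv0 hv' hτ
  have hr0 : r ≠ 0 := by
    rintro rfl
    rw [zero_pow (by norm_num)] at hr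
    exact hD (iota_inj ι (by rw [← hr, map_zero]))
  set w : V := ρ τ v with hw
  have hnsq : ¬ IsSquare D.norm := by
    rintro ⟨m, hm⟩
    rw [hm, Int.natAbs_mul] at hsf hlD
    have h1 : IsUnit m.natAbs := hsf _ dvd_rfl
    rw [Nat.isUnit_iff.1 h1] at hlD
    exact hl.ne_one (Nat.dvd_one.1 (by simpa using hlD))
  intro B hB
  -- the diagonal
  have hvv : B v v = 0 := by
    by_contra hne
    have hfix : ∀ σ : F ≃ₐ[ℚ] F, σ (I ι) = I ι → σ (r ^ 2) = r ^ 2 := by
      intro σ hσ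
      obtain ⟨k, hk⟩ := exists_kσ ι hr hσ
      have h1 := hB σ v v
      rw [hv' σ hσ k hk, bil, ← pow_add] at h1
      have h2 : Complex.I ^ (k + k) = Complex.I ^ 0 := by
        rw [pow_zero]
        exact mul_right_cancel₀ hne (by rw [h1, one_mul])
      have h3 := I_pow_eq ι h2
      rw [map_pow, hk, mul_pow, ← pow_mul, mul_comm k 2, two_mul, h3, pow_zero, one_mul]
    apply hnsq
    have hfixτ : ∀ σ : F ≃ₐ[ℚ] F, σ (I ι) = I ι → σ (τ (r ^ 2)) = τ (r ^ 2) := by
      intro σ hσ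
      have hστ : σ (τ (r ^ 2)) = τ ((τ⁻¹ * σ * τ) (r ^ 2)) := by
        rw [← AlgEquiv.mul_apply, ← AlgEquiv.mul_apply]
        congr 1
        group
      rw [hστ, hfix _ (conj_H ι hτ hσ)]
    refine isSquare_of ι hτ hD (t := r ^ 2 * τ (r ^ 2))
      (fun σ hσ => by rw [map_mul, hfix σ hσ, hfixτ σ hσ]) ?_
    calc (r ^ 2 * τ (r ^ 2)) ^ 2 = r ^ 4 * τ (r ^ 4) := by rw [map_pow, map_pow]; ring
      _ = ι D * τ (ι D) := by rw [hr]
      _ = (D.norm : F) := norm_eq ι hτ D
  have hww : B w w = 0 := by rw [hw, hB, hvv]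
  -- the mixed terms
  have hmix : ∀ z : ℂ, (∀ σ : F ≃ₐ[ℚ] F, σ (I ι) = I ι → ∀ k k' : ℕ, σ r = I ι ^ k * r →
      (τ⁻¹ * σ * τ) r = I ι ^ k' * r → Complex.I ^ (k + k') * z = z) → z = 0 := by
    intro z hz
    by_contra hne
    have hs0 : τ r ≠ 0 := by
      rw [Ne, map_eq_zero]; exact hr0
    have hfix : ∀ σ : F ≃ₐ[ℚ] F, σ (I ι) = I ι → σ (r / τ r) = r / τ r := by
      intro σ hσ
      obtain ⟨k, hk⟩ := exists_kσ ι hr hσ
      obtain ⟨k', hk'⟩ := exists_kσ ι hr (conj_H ι hτ hσ)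
      have h2 : Complex.I ^ (k + k') = Complex.I ^ 0 := by
        rw [pow_zero]
        exact mul_right_cancel₀ hne (by rw [hz σ hσ k k' hk hk', one_mul])
      have h3 := I_pow_eq ι h2
      rw [pow_zero, pow_add] at h3
      have h4 : I ι ^ k' * (- I ι) ^ k' = 1 := by
        rw [← mul_pow]
        have : I ι * (- I ι) = 1 := by
          have := I_sq ι
          calc I ι * (- I ι) = - (I ι ^ 2) := by ring
            _ = 1 := by rw [this]; ring
        rw [this, one_pow]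
      have h5 : (- I ι) ^ k' = I ι ^ k := by
        calc (- I ι) ^ k' = (I ι ^ k * I ι ^ k') * (- I ι) ^ k' := by rw [h3, one_mul]
          _ = I ι ^ k * (I ι ^ k' * (- I ι) ^ k') := by ring
          _ = I ι ^ k := by rw [h4, mul_one]
      have h6 : I ι ^ k ≠ 0 := pow_ne_zero _ (by
        intro h0
        have := I_sq ι
        rw [h0] at this
        norm_num at this)
      rw [map_div₀, hk, sig_tau ι hτ hk', h5, mul_div_mul_left _ _ h6]
    obtain ⟨a, b, hb, hab⟩ := exists_frac ι hτ hfix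
    refine no_fourth hsf hl hl2 hlD (a := a) (b := b) hb ?_
    apply iota_inj ι
    rw [map_mul, map_mul, map_pow, map_pow, ← hab, ← star_iota ι hτ, ← hr, map_pow, mul_pow,
      div_pow]
    have hs4 : (τ r) ^ 4 ≠ 0 := pow_ne_zero _ hs0
    field_simp
  have hvw : B v w = 0 := by
    apply hmix
    intro σ hσ k k' hk hk'
    have h1 := hB σ v w
    rw [hw, rconj ρ τ σ v, hv' σ hσ k hk, hv' _ (conj_H ι hτ hσ) k' hk', map_smul (ρ τ), bil,
      ← pow_add] at h1
    exact h1
  have hwv : B w v = 0 := by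
    apply hmix
    intro σ hσ k k' hk hk'
    have h1 := hB σ w v
    rw [hw, rconj ρ τ σ v, hv' σ hσ k hk, hv' _ (conj_H ι hτ hσ) k' hk', map_smul (ρ τ), bil,
      ← pow_add, add_comm k' k] at h1
    exact h1
  -- conclusion
  refine LinearMap.ext_on_range htop fun i => ?_
  refine LinearMap.ext_on_range htop fun j => ?_
  fin_cases i <;> fin_cases j
  · exact hvv
  · exact hvw
  · exact hwv
  · exact hww

end Pool.Agent.Helper35K9.NQ
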