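import Pool.Agent.Helper35K9.NQ.Nsd4

/-!
# NSD5: the same as NSD4 if the norm is not a square; scaling of the curves
-/

set_option autoImplicit false

namespace Pool.Agent.Helper35K9.NQ

open Pool.Agent.Helper35K9.LW.Rep

open DimL Dim4L Nsd4L in
theorem nsd5 : ∀ D : GaussianInt, D ≠ 0 → ¬ IsSquare D.norm →
    ∀ (F : Type) [Field F] [NumberField F] [IsGalois ℚ F] (ι : GaussianInt →+* F) (r : F),
    r ^ 4 = ι D → ∀ (V : Type) [AddCommGroup V] [Module ℂ V] (ρ : (F ≃ₐ[ℚ] F) →* (V →ₗ[ℂ] V)),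
      IsIrr ρ → Contains4 ι r ρ → NotSelfDual ρ := by
  intro D hD hnsq F _ _ _ ι r hr V _ _ ρ hirr hcon
  obtain ⟨v, hv0, hv⟩ := hcon
  obtain ⟨τ, hτ⟩ := exists_tau ι
  have hv' : ∀ σ : F ≃ₐ[ℚ] F, σ (I ι) = I ι → ∀ k : ℕ, σ r = I ι ^ k * r →
      ρ σ v = Complex.I ^ k • v := hv
  have htop := span_top ι ρ hr hirr hv0 hv' hτ
  have hr0 : r ≠ 0 := by
    rintro rfl
    rw [zero_pow (by norm_num)] at hr
    exact hD (iota_inj ι (by rw [← hr, map_zero]))
  set w : V := ρ τ v with hw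
  intro B hB
  -- the diagonal
  have hvv : B v v = 0 := by
    by_contra hne
    have hfix : ∀ σ : F ≃ₐ[ℚ] F, σ (I ι) = I ι → σ (r ^ 2) = r ^ 2 := by
      intro σ hσ
      obtain ⟨k, hk⟩ := exists_kσ ι hr hσ
      have h1 := hB σ v v
      rw [hv' σ hσ k hk, bil, ← pow_add] at h1
      have h2 : Complex.I ^ (k + k) = Complex.I ^ 0 := by
        rw [pow_zero]
        exact mul_right_cancel₀ hne (by rw [h1, one_mul])
      have h3 := I_pow_eq ι h2
      rw [map_pow, hk, mul_pow, ← pow_mul, mul_comm k 2, two_mul, h3, pow_zero, one_mul]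
    apply hnsq
    have hfixτ : ∀ σ : F ≃ₐ[ℚ] F, σ (I ι) = I ι → σ (τ (r ^ 2)) = τ (r ^ 2) := by
      intro σ hσ
      have hστ : σ (τ (r ^ 2)) = τ ((τ⁻¹ * σ * τ) (r ^ 2)) := by
        rw [← AlgEquiv.mul_apply, ← AlgEquiv.mul_apply]
        congr 1
        group
      rw [hστ, hfix _ (conj_H ι hτ hσ)]
    refine isSquare_of ι hτ hD (t := r ^ 2 * τ (r ^ 2))
      (fun σ hσ => by rw [map_mul, hfix σ hσ, hfixτ σ hσ]) ?_
    calc (r ^ 2 * τ (r ^ 2)) ^ 2 = r ^ 4 * τ (r ^ 4) := by rw [map_pow, map_pow]; ring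
      _ = ι D * τ (ι D) := by rw [hr]
      _ = (D.norm : F) := norm_eq ι hτ D
  have hww : B w w = 0 := by rw [hw, hB, hvv]
  -- the mixed terms
  have hmix : ∀ z : ℂ, (∀ σ : F ≃ₐ[ℚ] F, σ (I ι) = I ι → ∀ k k' : ℕ, σ r = I ι ^ k * r →
      (τ⁻¹ * σ * τ) r = I ι ^ k' * r → Complex.I ^ (k + k') * z = z) → z = 0 := by
    intro z hz
    by_contra hne
    have hs0 : τ r ≠ 0 := by
      rw [Ne, map_eq_zero]; exact hr0
    have hfix : ∀ σ : F ≃ₐ[ℚ] F, σ (I ι) = I ι → σ (r / τ r) = r / τ r := by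
      intro σ hσ
      obtain ⟨k, hk⟩ := exists_kσ ι hr hσ
      obtain ⟨k', hk'⟩ := exists_kσ ι hr (conj_H ι hτ hσ)
      have h2 : Complex.I ^ (k + k') = Complex.I ^ 0 := by
        rw [pow_zero]
        exact mul_right_cancel₀ hne (by rw [hz σ hσ k k' hk hk', one_mul])
      have h3 := I_pow_eq ι h2
      rw [pow_zero, pow_add] at h3
      have h4 : I ι ^ k' * (- I ι) ^ k' = 1 := by
        rw [← mul_pow]
        have : I ι * (- I ι) = 1 := by
          have := I_sq ι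
          calc I ι * (- I ι) = - (I ι ^ 2) := by ring
            _ = 1 := by rw [this]; ring
        rw [this, one_pow]
      have h5 : (- I ι) ^ k' = I ι ^ k := by
        calc (- I ι) ^ k' = (I ι ^ k * I ι ^ k') * (- I ι) ^ k' := by rw [h3, one_mul]
          _ = I ι ^ k * (I ι ^ k' * (- I ι) ^ k') := by ring
          _ = I ι ^ k := by rw [h4, mul_one]
      have h6 : I ι ^ k ≠ 0 := pow_ne_zero _ (by
        intro h0
        have := I_sq ι
        rw [h0] at this
        norm_num at this)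
      rw [map_div₀, hk, sig_tau ι hτ hk', h5, mul_div_mul_left _ _ h6]
    apply hnsq
    refine isSquare_of ι hτ hD (t := (r / τ r) ^ 2 * τ (ι D))
      (fun σ hσ => by
        rw [map_mul, map_pow, hfix σ hσ, star_iota ι hτ, fix_iota ι hσ]) ?_
    have hs4 : (τ r) ^ 4 ≠ 0 := pow_ne_zero _ hs0
    have h7 : τ (ι D) = (τ r) ^ 4 := by rw [← hr, map_pow]
    have h8 := norm_eq ι hτ D
    rw [← h8]
    calc ((r / τ r) ^ 2 * τ (ι D)) ^ 2 = r ^ 4 * τ (ι D) := by
          rw [h7]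
          field_simp
      _ = ι D * τ (ι D) := by rw [hr]
  have hvw : B v w = 0 := by
    apply hmix
    intro σ hσ k k' hk hk'
    have h1 := hB σ v w
    rw [hw, rconj ρ τ σ v, hv' σ hσ k hk, hv' _ (conj_H ι hτ hσ) k' hk', map_smul (ρ τ), bil,
      ← pow_add] at h1
    exact h1
  have hwv : B w v = 0 := by
    apply hmix
    intro σ hσ k k' hk hk'
    have h1 := hB σ w v
    rw [hw, rconj ρ τ σ v, hv' σ hσ k hk, hv' _ (conj_H ι hτ hσ) k' hk', map_smul (ρ τ), bil,
      ← pow_add, add_comm k' k] at h1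
    exact h1
  -- conclusion
  refine LinearMap.ext_on_range htop fun i => ?_
  refine LinearMap.ext_on_range htop fun j => ?_
  fin_cases i <;> fin_cases j
  · exact hvv
  · exact hvw
  · exact hwv
  · exact hww

/-- scaling -/
theorem finC_scale {c h : GaussianInt} (hh : h ≠ 0) (hc : FinC c) : FinC (c * h ^ 4) := by
  set t := algebraMap GaussianInt (FractionRing GaussianInt) h with ht
  have ht0 : t ≠ 0 := by
    rw [ht, Ne, IsFractionRing.to_map_eq_zero_iff]
    exact hh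
  have hinj : Function.Injective (fun P : FractionRing GaussianInt × FractionRing GaussianInt =>
      (P.1 / t ^ 2, P.2 / t ^ 3)) := by
    rintro ⟨x, y⟩ ⟨x', y'⟩ h
    have h1 := congrArg Prod.fst h
    have h2 := congrArg Prod.snd h
    simp only at h1 h2
    rw [div_left_inj' (pow_ne_zero 2 ht0)] at h1
    rw [div_left_inj' (pow_ne_zero 3 ht0)] at h2
    rw [h1, h2]
  refine (Set.Finite.preimage hinj.injOn hc).subset ?_
  rintro ⟨x, y⟩ hxy
  have h1 : y ^ 2 = x ^ 3 - algebraMap GaussianInt (FractionRing GaussianInt) (c * h ^ 4) * x := hxy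
  rw [map_mul, map_pow, ← ht] at h1
  show (y / t ^ 3) ^ 2 = (x / t ^ 2) ^ 3 -
    algebraMap GaussianInt (FractionRing GaussianInt) c * (x / t ^ 2)
  field_simp
  linear_combination h1

end Pool.Agent.Helper35K9.NQ
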