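import Pool.Agent.Helper35K9.NQ.StmM
import Pool.Agent.Helper26K9.MX.Pts

/-!
# Leaf R1M
-/

set_option autoImplicit false

open Finset

namespace Pool.Agent.Helper35K9.NQ

open Pool.Agent.Y690.PP Pool.Agent.Y690.PP.Fn Pool.Agent.Helper26K9.DN Pool.Agent.Helper26K9.QT

/-- the product of the powers -/
theorem prod_pow_eq (A : Finset Pr) (e : Pr → ℕ) (he : ∀ p ∈ A, e p = 1 ∨ e p = 3) :
    ∏ p ∈ A, p.1 ^ e p = PA A * PA (A.filter fun p => e p = 3) ^ 2 := by
  unfold PA
  rw [← Finset.prod_pow, Finset.prod_filter, ← Finset.prod_mul_distrib]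
  refine Finset.prod_congr rfl fun p hp => ?_
  rcases he p hp with h | h
  · rw [h, if_neg (by norm_num), mul_one, pow_one]
  · rw [h, if_pos rfl]
    ring

theorem r1m : S_R1M := by
  intro A hX hch e he s hs x y hx hxy
  rw [prod_pow_eq A e he] at hxy ⊢
  refine Pool.Agent.Helper26K9.MX.r1M A hX hch (A.filter fun p => e p = 3)
    (Finset.filter_subset _ _) _ ?_ x y hx hxy
  rcases hs with rfl | rfl
  · left
    rw [one_mul]
  · right
    ring

end Pool.Agent.Helper35K9.NQ
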