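import Pool.Agent.Helper35K9.NQ.Rep4J

/-!
# REP4: the representations containing a quartic character do not occur in `ℂ ⊗ E_n(F)`
-/

set_option autoImplicit false

namespace Pool.Agent.Helper35K9.NQ.Rep4L

open WeierstrassCurve TensorProduct
open Pool.Agent.Helper35K9.LW.Rep
open Pool.Agent.Helper35K9.LW.Rep.DimL Pool.Agent.Helper35K9.LW.Rep.RepL

variable {F : Type} [Field F] [NumberField F] (ι : GaussianInt →+* F)

lemma I_four : (I ι) ^ 4 = 1 := by
  calc (I ι) ^ 4 = ((I ι) ^ 2) ^ 2 := by ring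
    _ = 1 := by rw [I_sq]; ring

lemma I_order : orderOf (I ι) = 4 := by
  have h := orderOf_eq_prime_pow (x := I ι) (p := 2) (n := 1)
    (by
      rw [pow_one, I_sq]
      intro h
      norm_num at h)
    (by
      show (I ι) ^ (2 ^ (1 + 1)) = 1
      have : (2 : ℕ) ^ (1 + 1) = 4 := by norm_num
      rw [this, I_four])
  rw [h]; norm_num

lemma I_pow_inj {a b : ℕ} (h : (I ι) ^ a = (I ι) ^ b) : a % 4 = b % 4 := by
  have hm : ∀ c : ℕ, (I ι) ^ c = (I ι) ^ (c % 4) := fun c => by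
    conv_lhs => rw [← Nat.div_add_mod c 4, pow_add, pow_mul, I_four, one_pow, one_mul]
  rw [hm a, hm b] at h
  have h2 := pow_injOn_Iio_orderOf (x := I ι)
  rw [I_order] at h2
  exact h2 (Nat.mod_lt _ (by norm_num)) (Nat.mod_lt _ (by norm_num)) h

lemma exists_k {D : GaussianInt} {r : F} (hr : r ^ 4 = ι D) {σ : F ≃ₐ[ℚ] F}
    (hσ : σ (I ι) = I ι) : ∃ k : ℕ, σ r = (I ι) ^ k * r := by
  have h1 : (σ r) ^ 4 = r ^ 4 := by rw [← map_pow, hr, fix_iota ι hσ]
  have hI := I_sq ι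
  have h2 : ((σ r - r) * (σ r + r)) * ((σ r - I ι * r) * (σ r + I ι * r)) = 0 := by
    linear_combination h1 - ((σ r) ^ 2 - r ^ 2) * r ^ 2 * hI
  rcases mul_eq_zero.mp h2 with h3 | h3
  · rcases mul_eq_zero.mp h3 with h4 | h4
    · exact ⟨0, by linear_combination h4⟩
    · exact ⟨2, by linear_combination h4 - r * hI⟩
  · rcases mul_eq_zero.mp h3 with h4 | h4
    · exact ⟨1, by linear_combination h4⟩
    · exact ⟨3, by linear_combination h4 - (I ι) * r * hI⟩

open Classical in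
/-- the exponent `k(σ)` -/
noncomputable def kk (r : F) (σ : F ≃ₐ[ℚ] F) : ℕ :=
  if h : ∃ k : ℕ, σ r = (I ι) ^ k * r then Classical.choose h else 0

lemma kk_spec {D : GaussianInt} {r : F} (hr : r ^ 4 = ι D) {σ : F ≃ₐ[ℚ] F}
    (hσ : σ (I ι) = I ι) : σ r = (I ι) ^ (kk ι r σ) * r := by
  have h := exists_k ι hr hσ
  unfold kk
  rw [dif_pos h]
  exact Classical.choose_spec h

lemma kk_mul {D : GaussianInt} {r : F} (hr0 : r ≠ 0) (hr : r ^ 4 = ι D) {σ τ : F ≃ₐ[ℚ] F}
    (hσ : σ (I ι) = I ι) (hτ : τ (I ι) = I ι) :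
    kk ι r (σ * τ) % 4 = (kk ι r σ + kk ι r τ) % 4 := by
  have h1 : (σ * τ) (I ι) = I ι := by rw [AlgEquiv.mul_apply, hτ, hσ]
  have h2 := kk_spec ι hr h1
  rw [AlgEquiv.mul_apply, kk_spec ι hr hτ, map_mul, map_pow, hσ, kk_spec ι hr hσ, ← mul_assoc] at h2
  have h3 := mul_right_cancel₀ hr0 h2
  apply I_pow_inj ι
  rw [← h3, pow_add, mul_comm]

open Classical in
/-- the projection -/
noncomputable def pj (n : ℤ) (r : F) (a : ℕ) : Pts F (E4 n) →+ Pts F (E4 n) :=
  ∑ σ ∈ HH ι, (JP n (I_sq ι) (3 * a * kk ι r σ)).comp (mp (E4 n) σ)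

open Classical in
lemma pj_apply (n : ℤ) (r : F) (a : ℕ) (P : Pts F (E4 n)) :
    pj ι n r a P = ∑ σ ∈ HH ι, JP n (I_sq ι) (3 * a * kk ι r σ) (mp (E4 n) σ P) := by
  unfold pj
  rw [AddMonoidHom.finsetSum_apply]
  rfl

open Classical in
lemma mp_pj (n : ℤ) {D : GaussianInt} {r : F} (hr0 : r ≠ 0) (hr : r ^ 4 = ι D) (a : ℕ)
    {σ : F ≃ₐ[ℚ] F} (hσ : σ (I ι) = I ι) (P : Pts F (E4 n)) :
    mp (E4 n) σ (pj ι n r a P) = JP n (I_sq ι) (a * kk ι r σ) (pj ι n r a P) := by
  rw [pj_apply, map_sum, map_sum]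
  refine Finset.sum_bij (fun x _ => σ * x) ?_ ?_ ?_ ?_
  · intro x hx
    rw [mem_HH] at hx ⊢
    rw [AlgEquiv.mul_apply, hx, hσ]
  · intro x _ y _ hab
    exact mul_left_cancel hab
  · intro b hb
    refine ⟨σ⁻¹ * b, ?_, by simp⟩
    rw [mem_HH] at hb ⊢
    have h2 : σ⁻¹ (I ι) = I ι := by
      conv_lhs => rw [← hσ]
      rw [← AlgEquiv.mul_apply, inv_mul_cancel, AlgEquiv.one_apply]
    rw [AlgEquiv.mul_apply, hb, h2]
  · intro x hx
    rw [mem_HH] at hx
    rw [mp_JP _ _ hσ, ← mp_mul, ← JP_add]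
    apply JP_mod
    have h := kk_mul ι hr0 hr hσ hx
    have h2 : (3 * a * kk ι r (σ * x)) % 4 = (3 * a * (kk ι r σ + kk ι r x)) % 4 := by
      rw [Nat.mul_mod, h, ← Nat.mul_mod]
    rw [Nat.add_mod, h2, ← Nat.add_mod]
    have h3 : a * kk ι r σ + 3 * a * (kk ι r σ + kk ι r x) =
        3 * a * kk ι r x + 4 * (a * kk ι r σ) := by ring
    rw [h3, Nat.add_mul_mod_self_left]

open Classical in
/-- from points over `ℚ(i)` to points over `F` -/
noncomputable def gg (n : ℤ) (r : F) (a : ℕ)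
    (p : FractionRing GaussianInt × FractionRing GaussianInt) : Pts F (E4 n) :=
  if h : (WF F n).Nonsingular (emb ι p.1 / r ^ (2 * a)) (emb ι p.2 / r ^ (3 * a)) then
    .some _ _ h else 0

open Classical in
lemma pj_mem [IsGalois ℚ F] (n : ℤ) {D : GaussianInt} {r : F} (hr0 : r ≠ 0) (hr : r ^ 4 = ι D)
    (a : ℕ) (P : Pts F (E4 n)) :
    pj ι n r a P = 0 ∨ ∃ p : FractionRing GaussianInt × FractionRing GaussianInt,
      p.2 ^ 2 = p.1 ^ 3 - algebraMap GaussianInt (FractionRing GaussianInt)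
        ((n : GaussianInt) * D ^ a) * p.1 ∧ gg ι n r a p = pj ι n r a P := by
  have key := fun (σ : F ≃ₐ[ℚ] F) (hσ : σ (I ι) = I ι) => mp_pj ι n hr0 hr a hσ P
  generalize pj ι n r a P = Q at key ⊢
  match Q with
  | 0 => exact Or.inl rfl
  | .some x y h =>
    right
    have hboth : ∀ σ : F ≃ₐ[ℚ] F, σ (I ι) = I ι →
        σ x = (-1) ^ (a * kk ι r σ) * x ∧ σ y = (I ι) ^ (a * kk ι r σ) * y := by
      intro σ hσ
      have h2 := key σ hσ
      obtain ⟨h', h3⟩ := mp_some σ h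
      obtain ⟨h'', h4⟩ := JP_some (I_sq ι) (a * kk ι r σ) h
      rw [h3, h4] at h2
      exact Affine.Point.some.inj h2
    have hI4 := I_four ι
    obtain ⟨X, hX⟩ := exists_of_fixed ι (x := x * r ^ (2 * a)) (by
      intro σ hσ
      rw [map_mul, map_pow, (hboth σ hσ).1, kk_spec ι hr hσ]
      have h5 : ((I ι) ^ kk ι r σ * r) ^ (2 * a) = (-1) ^ (a * kk ι r σ) * r ^ (2 * a) := by
        rw [mul_pow, ← pow_mul, show kk ι r σ * (2 * a) = 2 * (a * kk ι r σ) by ring, pow_mul, I_sq]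
      rw [h5]
      have h6 : ((-1 : F) ^ (a * kk ι r σ)) * (-1) ^ (a * kk ι r σ) = 1 := by
        rw [← mul_pow]; simp
      linear_combination x * r ^ (2 * a) * h6)
    obtain ⟨Y, hY⟩ := exists_of_fixed ι (x := y * r ^ (3 * a)) (by
      intro σ hσ
      rw [map_mul, map_pow, (hboth σ hσ).2, kk_spec ι hr hσ]
      have h6 : (I ι) ^ (a * kk ι r σ) * ((I ι) ^ kk ι r σ) ^ (3 * a) = 1 := by
        rw [← pow_mul, ← pow_add,
          show a * kk ι r σ + kk ι r σ * (3 * a) = 4 * (a * kk ι r σ) by ring, pow_mul, hI4, one_pow]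
      rw [mul_pow]
      linear_combination y * r ^ (3 * a) * h6)
    have hxy : y ^ 2 = x ^ 3 - n * x := ((ns_iff n x y).mp h).1
    refine ⟨(X, Y), ?_, ?_⟩
    · apply (emb ι).injective
      rw [map_pow, map_sub, map_mul, map_pow, emb_alg, hX, hY, map_mul, map_pow, map_intCast, ← hr]
      have h7 : (r ^ 4) ^ a = r ^ (2 * a) * r ^ (2 * a) := by
        rw [← pow_mul, ← pow_add]; congr 1; ring
      have h8 : r ^ (3 * a) * r ^ (3 * a) = r ^ (2 * a) * r ^ (2 * a) * r ^ (2 * a) := by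
        rw [← pow_add, ← pow_add, ← pow_add]; congr 1; ring
      rw [h7]
      linear_combination (y ^ 2) * h8 + (r ^ (2 * a)) ^ 3 * hxy
    · have hx : emb ι X / r ^ (2 * a) = x := by
        rw [hX]; exact mul_div_cancel_right₀ _ (pow_ne_zero _ hr0)
      have hy : emb ι Y / r ^ (3 * a) = y := by
        rw [hY]; exact mul_div_cancel_right₀ _ (pow_ne_zero _ hr0)
      unfold gg
      have h9 : (WF F n).Nonsingular (emb ι (X, Y).1 / r ^ (2 * a)) (emb ι (X, Y).2 / r ^ (3 * a)) := by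
        show (WF F n).Nonsingular (emb ι X / r ^ (2 * a)) (emb ι Y / r ^ (3 * a))
        rw [hx, hy]; exact h
      rw [dif_pos h9]
      exact (Affine.Point.some.injEq ..).mpr ⟨hx, hy⟩

open Classical in
lemma exists_N [IsGalois ℚ F] (n : ℤ) {D : GaussianInt} {r : F} (hr0 : r ≠ 0) (hr : r ^ 4 = ι D)
    (a : ℕ) (hfin : FinC ((n : GaussianInt) * D ^ a)) :
    ∃ N : ℕ, N ≠ 0 ∧ ∀ P : Pts F (E4 n), N • pj ι n r a P = 0 := by
  have hf : ((pj ι n r a).range : Set (Pts F (E4 n))).Finite := by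
    refine Set.Finite.subset ((hfin.image (gg ι n r a)).insert 0) ?_
    rintro _ ⟨P, rfl⟩
    rcases pj_mem ι n hr0 hr a P with h | ⟨p, hp, hp2⟩
    · exact Set.mem_insert_iff.mpr (Or.inl h)
    · exact Set.mem_insert_iff.mpr (Or.inr ⟨p, hp, hp2⟩)
  haveI : Finite (pj ι n r a).range := hf.to_subtype
  refine ⟨Nat.card (pj ι n r a).range, Nat.card_pos.ne', fun P => ?_⟩
  have h := card_nsmul_eq_zero' (G := (pj ι n r a).range) (x := ⟨pj ι n r a P, ⟨P, rfl⟩⟩)
  exact congrArg Subtype.val h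

open Classical in
/-- the extension to `ℂ ⊗ E(F)` -/
noncomputable def ext (W : WeierstrassCurve ℚ) (g : Pts F W →+ Pts F W) : VE F W →ₗ[ℂ] VE F W :=
  LinearMap.baseChange ℂ g.toIntLinearMap

open Classical in
lemma ext_tm (W : WeierstrassCurve ℚ) (g : Pts F W →+ Pts F W) (c : ℂ) (P : Pts F W) :
    ext W g (tm W c P) = tm W c (g P) := rfl

open Classical in
lemma ext_JP_succ (n : ℤ) {ζ : F} (hζ : ζ ^ 2 = -1) (m : ℕ) (x : VE F (E4 n)) :
    ext (E4 n) (JP n hζ (m + 1)) x = ext (E4 n) (J n hζ) (ext (E4 n) (JP n hζ m) x) := by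
  induction x using tm_ind with
  | h0 => simp
  | h2 x y hx hy => rw [map_add, map_add, map_add, hx, hy]
  | h1 c P => rw [ext_tm, ext_tm, ext_tm, JP_succ]

open Classical in
lemma ext_JP_zero (n : ℤ) {ζ : F} (hζ : ζ ^ 2 = -1) (x : VE F (E4 n)) :
    ext (E4 n) (JP n hζ 0) x = x := by
  induction x using tm_ind with
  | h0 => simp
  | h2 x y hx hy => rw [map_add, hx, hy]
  | h1 c P => rw [ext_tm, JP_zero]

open Classical in
lemma J_J (n : ℤ) {ζ : F} (hζ : ζ ^ 2 = -1) (P : Pts F (E4 n)) : J n hζ (J n hζ P) = -P := by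
  match P with
  | 0 => rw [map_zero, map_zero, neg_zero]
  | .some x y h =>
    rw [J_some, J_some, Affine.Point.neg_some]
    refine (Affine.Point.some.injEq ..).mpr ⟨by ring, ?_⟩
    rw [negY_eq]
    linear_combination y * hζ

open Classical in
lemma ext_J_J (n : ℤ) {ζ : F} (hζ : ζ ^ 2 = -1) (x : VE F (E4 n)) :
    ext (E4 n) (J n hζ) (ext (E4 n) (J n hζ) x) = -x := by
  induction x using tm_ind with
  | h0 => simp
  | h2 x y hx hy => rw [map_add, map_add, hx, hy, neg_add]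
  | h1 c P => rw [ext_tm, ext_tm, J_J, tm_neg]

open Classical in
lemma act_ext_J (n : ℤ) {ζ : F} (hζ : ζ ^ 2 = -1) {σ : F ≃ₐ[ℚ] F} (hσ : σ ζ = ζ)
    (x : VE F (E4 n)) :
    act F (E4 n) σ (ext (E4 n) (J n hζ) x) = ext (E4 n) (J n hζ) (act F (E4 n) σ x) := by
  induction x using tm_ind with
  | h0 => simp
  | h2 x y hx hy => rw [map_add, map_add, map_add, map_add, hx, hy]
  | h1 c P => rw [ext_tm, act_tm, act_tm, ext_tm, mp_J hζ σ hσ]

open Classical in
lemma ext_pj (n : ℤ) (r : F) (a : ℕ) (x : VE F (E4 n)) :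
    ext (E4 n) (pj ι n r a) x =
      ∑ σ ∈ HH ι, ext (E4 n) (JP n (I_sq ι) (3 * a * kk ι r σ)) (act F (E4 n) σ x) := by
  induction x using tm_ind with
  | h0 => simp
  | h2 x y hx hy =>
    rw [map_add, hx, hy, ← Finset.sum_add_distrib]
    refine Finset.sum_congr rfl (fun σ _ => ?_)
    rw [map_add, map_add]
  | h1 c P =>
    rw [ext_tm, pj_apply, tm_sum]
    refine Finset.sum_congr rfl (fun σ _ => ?_)
    rw [act_tm, ext_tm]

open Classical in
lemma ext_pj_zero [IsGalois ℚ F] (n : ℤ) {D : GaussianInt} {r : F} (hr0 : r ≠ 0)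
    (hr : r ^ 4 = ι D) (a : ℕ) (hfin : FinC ((n : GaussianInt) * D ^ a)) (x : VE F (E4 n)) :
    ext (E4 n) (pj ι n r a) x = 0 := by
  obtain ⟨N, hN, hP⟩ := exists_N ι n hr0 hr a hfin
  induction x using tm_ind with
  | h0 => simp
  | h2 x y hx hy => rw [map_add, hx, hy, add_zero]
  | h1 c P =>
    rw [ext_tm]
    have h1 : ((N : ℤ) : ℂ) • tm (E4 n) c (pj ι n r a P) = 0 := by
      rw [← tm_zsmul, natCast_zsmul, hP]
      exact TensorProduct.tmul_zero _ c
    refine (smul_eq_zero.mp h1).resolve_left ?_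
    exact_mod_cast hN

open Classical in
lemma key_zero [IsGalois ℚ F] (n : ℤ) {D : GaussianInt} {r : F} (hr0 : r ≠ 0)
    (hr : r ^ 4 = ι D) (a : ℕ) (hfin : FinC ((n : GaussianInt) * D ^ a)) (w : VE F (E4 n)) (c : ℂ)
    (hc : Complex.I * c ^ (3 * a) = 1) (hJ : ext (E4 n) (J n (I_sq ι)) w = c • w)
    (hw : ∀ σ : F ≃ₐ[ℚ] F, σ (I ι) = I ι → act F (E4 n) σ w = Complex.I ^ (kk ι r σ) • w) :
    w = 0 := by
  have h0 := ext_pj_zero ι n hr0 hr a hfin w
  rw [ext_pj] at h0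
  have hm : ∀ m : ℕ, ext (E4 n) (JP n (I_sq ι) m) w = c ^ m • w := by
    intro m
    induction m with
    | zero => rw [ext_JP_zero, pow_zero, one_smul]
    | succ m ih => rw [ext_JP_succ, ih, map_smul, hJ, smul_smul, pow_succ]
  have h1 : ∀ σ ∈ HH ι, ext (E4 n) (JP n (I_sq ι) (3 * a * kk ι r σ)) (act F (E4 n) σ w) = w := by
    intro σ hσ
    rw [mem_HH] at hσ
    rw [hw σ hσ, map_smul, hm, smul_smul, pow_mul, ← mul_pow, hc, one_pow, one_smul]
  rw [Finset.sum_congr rfl h1, Finset.sum_const, ← Nat.cast_smul_eq_nsmul ℂ] at h0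
  refine (smul_eq_zero.mp h0).resolve_left ?_
  have : (HH ι).Nonempty := ⟨1, by rw [mem_HH]; rfl⟩
  exact_mod_cast (Finset.card_pos.mpr this).ne'

end Pool.Agent.Helper35K9.NQ.Rep4L

namespace Pool.Agent.Helper35K9.NQ

open WeierstrassCurve TensorProduct
open Pool.Agent.Helper35K9.LW.Rep
open Pool.Agent.Helper35K9.LW.Rep.DimL Pool.Agent.Helper35K9.LW.Rep.RepL
open Rep4L

open Classical in
theorem rep4 : S_REP4 := by
  intro n D hn hD hf1 hf3 F _ _ _ ι r hr V _ _ ρ hirr hcon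
  obtain ⟨v, hv0, hv⟩ := hcon
  have hr0 : r ≠ 0 := by
    intro h
    apply hD
    apply iota_inj ι
    rw [← hr, h, map_zero]; simp
  have hmem : ∀ f ∈ HomG F (E4 n) ρ, f = 0 := by
    intro f hf
    have hf' : IsHom F (E4 n) ρ f := hf
    have hw : ∀ σ : F ≃ₐ[ℚ] F, σ (I ι) = I ι →
        act F (E4 n) σ (f v) = Complex.I ^ (kk ι r σ) • f v := by
      intro σ hσ
      rw [← hf' σ v, hv σ hσ _ (kk_spec ι hr hσ), map_smul]
    set JJ := ext (E4 n) (J n (I_sq ι)) with hJJ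
    have hJ2 : ∀ x, JJ (JJ x) = -x := ext_J_J n (I_sq ι)
    have hI2 : Complex.I * Complex.I = -1 := Complex.I_mul_I
    have hplus : f v - Complex.I • JJ (f v) = 0 := by
      apply key_zero ι n hr0 hr 1 (by rw [pow_one]; exact hf1) _ Complex.I
      · show Complex.I * Complex.I ^ 3 = 1
        linear_combination (Complex.I * Complex.I - 1) * hI2
      · rw [← hJJ, map_sub, map_smul, hJ2, smul_sub, smul_smul, hI2]
        rw [smul_neg, neg_smul, one_smul]
        abel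
      · intro σ hσ
        rw [map_sub, map_smul, act_ext_J n (I_sq ι) hσ, hw σ hσ, map_smul, smul_sub, smul_smul,
          smul_smul, mul_comm]
    have hminus : f v + Complex.I • JJ (f v) = 0 := by
      apply key_zero ι n hr0 hr 3 hf3 _ (-Complex.I)
      · show Complex.I * (-Complex.I) ^ 9 = 1
        have h4 : Complex.I ^ 4 = 1 := Complex.I_pow_four
        linear_combination -(Complex.I ^ 4 + 1) * (Complex.I ^ 2) * h4 - hI2
      · rw [← hJJ, map_add, map_smul, hJ2, smul_add, smul_smul]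
        have h5 : -Complex.I * Complex.I = 1 := by rw [neg_mul, hI2, neg_neg]
        rw [h5, one_smul, smul_neg, neg_smul]
        abel
      · intro σ hσ
        rw [map_add, map_smul, act_ext_J n (I_sq ι) hσ, hw σ hσ, map_smul, smul_add, smul_smul,
          smul_smul, mul_comm]
    have hfv : f v = 0 := by
      have h2 : (2 : ℂ) • f v = 0 := by
        rw [two_smul]
        have := congrArg₂ (· + ·) hplus hminus
        simpa using this
      exact (smul_eq_zero.mp h2).resolve_left two_ne_zero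
    rcases hirr.2 (LinearMap.ker f) (by
      intro g u hu
      rw [LinearMap.mem_ker] at hu ⊢
      rw [hf' g u, hu, map_zero]) with h | h
    · exfalso
      apply hv0
      have : v ∈ LinearMap.ker f := hfv
      rw [h] at this
      exact (Submodule.mem_bot ℂ).mp this
    · exact LinearMap.ker_eq_top.mp h
  have hbot : HomG F (E4 n) ρ = ⊥ := by
    rw [Submodule.eq_bot_iff]
    exact hmem
  unfold mult
  rw [hbot]
  exact finrank_bot ℂ _

end Pool.Agent.Helper35K9.NQ
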