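import Pool.Agent.Helper35K9.LW.Rep
import Pool.Agent.Helper35K9.NQ.Df

/-!
# REP4, first part: the endomorphism `J (x, y) = (-x, ζ y)`
-/

set_option autoImplicit false

namespace Pool.Agent.Helper35K9.NQ.Rep4L

open WeierstrassCurve TensorProduct
open Pool.Agent.Helper35K9.LW.Rep
open Pool.Agent.Helper35K9.LW.Rep.DimL Pool.Agent.Helper35K9.LW.Rep.RepL

variable {F : Type} [Field F] [NumberField F] (n : ℤ)

/-- the curve over `F` -/
abbrev WF (F : Type) [Field F] [NumberField F] (n : ℤ) : Affine F := ((E4 n).baseChange F).toAffine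

lemma ha1 : (WF F n).a₁ = 0 := by simp [E4]
lemma ha2 : (WF F n).a₂ = 0 := by simp [E4]
lemma ha3 : (WF F n).a₃ = 0 := by simp [E4]
lemma ha4 : (WF F n).a₄ = - (n : F) := by simp [E4]
lemma ha6 : (WF F n).a₆ = 0 := by simp [E4]

lemma negY_eq (x y : F) : (WF F n).negY x y = - y := by
  rw [Affine.negY, ha1, ha3]; ring

lemma eqn_iff (x y : F) : (WF F n).Equation x y ↔ y ^ 2 = x ^ 3 - n * x := by
  rw [Affine.equation_iff, ha1, ha2, ha3, ha4, ha6]
  constructor
  · intro h; linear_combination h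
  · intro h; linear_combination h

lemma ns_iff (x y : F) : (WF F n).Nonsingular x y ↔
    y ^ 2 = x ^ 3 - n * x ∧ (3 * x ^ 2 - n ≠ 0 ∨ y ≠ 0) := by
  rw [Affine.nonsingular_iff, eqn_iff, ha1, ha2, ha3, ha4]
  refine and_congr Iff.rfl (or_congr (not_congr ?_) (not_congr ?_))
  · constructor
    · intro h; linear_combination -h
    · intro h; linear_combination -h
  · constructor
    · intro h; linear_combination (1 / 2 : F) * h
    · intro h; linear_combination 2 * h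

variable {n} {ζ : F} (hζ : ζ ^ 2 = -1)

include hζ in
lemma z_ne : ζ ≠ 0 := by
  intro h
  rw [h] at hζ
  norm_num at hζ

include hζ in
lemma J_ns {x y : F} (h : (WF F n).Nonsingular x y) : (WF F n).Nonsingular (-x) (ζ * y) := by
  rw [ns_iff] at h ⊢
  refine ⟨by rw [mul_pow, hζ, h.1]; ring, ?_⟩
  rcases h.2 with h2 | h2
  · left
    intro h3
    exact h2 (by linear_combination h3)
  · right
    exact mul_ne_zero (z_ne hζ) h2

open Classical in
include hζ in
lemma slope_J {x₁ x₂ y₁ y₂ : F}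
    (hxy : ¬(x₁ = x₂ ∧ y₁ = (WF F n).negY x₂ y₂)) :
    (WF F n).slope (-x₁) (-x₂) (ζ * y₁) (ζ * y₂) = -ζ * (WF F n).slope x₁ x₂ y₁ y₂ := by
  have hz := z_ne hζ
  have hinv : ζ⁻¹ = -ζ := by
    rw [inv_eq_iff_eq_inv, eq_comm, inv_eq_iff_eq_inv]
    field_simp
    linear_combination -hζ
  by_cases hx : x₁ = x₂
  · have hy : y₁ ≠ (WF F n).negY x₂ y₂ := fun h => hxy ⟨hx, h⟩
    rw [Affine.slope_of_Y_ne hx hy, Affine.slope_of_Y_ne (by rw [hx]) (by
      rw [negY_eq] at hy ⊢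
      intro h
      apply hy
      have h3 : ζ * y₁ = ζ * (-y₂) := by rw [h]; ring
      exact mul_left_cancel₀ hz h3)]
    rw [negY_eq, negY_eq, ha1, ha2, ha4]
    have h4 : ζ * y₁ - -(ζ * y₁) = ζ * (y₁ - -y₁) := by ring
    rw [h4, ← hinv, ← div_eq_inv_mul, div_div]
    congr 1
    · ring
    · ring
  · rw [Affine.slope_of_X_ne hx, Affine.slope_of_X_ne (by
      intro h; exact hx (neg_injective h))]
    have h3 : x₁ - x₂ ≠ 0 := sub_ne_zero.mpr hx
    have h4 : -x₁ - -x₂ = -(x₁ - x₂) := by ring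
    rw [h4, ← mul_sub, div_neg, mul_div_assoc]
    ring

open Classical in
/-- the endomorphism `J` -/
noncomputable def J (n : ℤ) {ζ : F} (hζ : ζ ^ 2 = -1) : Pts F (E4 n) →+ Pts F (E4 n) where
  toFun P := match P with
    | 0 => 0
    | .some _ _ h => .some _ _ (J_ns hζ h)
  map_zero' := rfl
  map_add' := by
    rintro (_ | ⟨x₁, y₁, h₁⟩) (_ | ⟨x₂, y₂, h₂⟩)
    any_goals rfl
    by_cases hxy : x₁ = x₂ ∧ y₁ = (WF F n).negY x₂ y₂
    · have hxy' : -x₁ = -x₂ ∧ ζ * y₁ = (WF F n).negY (-x₂) (ζ * y₂) := by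
        refine ⟨by rw [hxy.1], ?_⟩
        rw [hxy.2, negY_eq, negY_eq]; ring
      rw [Affine.Point.add_of_Y_eq hxy.1 hxy.2, Affine.Point.add_of_Y_eq hxy'.1 hxy'.2]
    · have hxy' : ¬(-x₁ = -x₂ ∧ ζ * y₁ = (WF F n).negY (-x₂) (ζ * y₂)) := by
        rintro ⟨h, h'⟩
        apply hxy
        refine ⟨neg_injective h, ?_⟩
        rw [negY_eq] at h' ⊢
        have h3 : ζ * y₁ = ζ * (-y₂) := by rw [h']; ring
        exact mul_left_cancel₀ (z_ne hζ) h3
      rw [Affine.Point.add_some hxy, Affine.Point.add_some hxy']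
      have hs := slope_J hζ hxy
      have hX : (WF F n).addX (-x₁) (-x₂) ((WF F n).slope (-x₁) (-x₂) (ζ * y₁) (ζ * y₂)) =
          -(WF F n).addX x₁ x₂ ((WF F n).slope x₁ x₂ y₁ y₂) := by
        rw [hs, Affine.addX, Affine.addX, ha1, ha2]
        linear_combination ((WF F n).slope x₁ x₂ y₁ y₂) ^ 2 * hζ
      have hY : (WF F n).addY (-x₁) (-x₂) (ζ * y₁) ((WF F n).slope (-x₁) (-x₂) (ζ * y₁) (ζ * y₂)) =
          ζ * (WF F n).addY x₁ x₂ y₁ ((WF F n).slope x₁ x₂ y₁ y₂) := by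
        rw [Affine.addY, Affine.addY, Affine.negAddY, Affine.negAddY, hX, hs, negY_eq, negY_eq]
        ring
      exact (Affine.Point.some.injEq ..).mpr ⟨hX.symm, hY.symm⟩

open Classical in
lemma J_some {x y : F} (h : (WF F n).Nonsingular x y) :
    J n hζ (.some x y h) = .some (-x) (ζ * y) (J_ns hζ h) := rfl

open Classical in
lemma mp_some (σ : F ≃ₐ[ℚ] F) {x y : F} (h : (WF F n).Nonsingular x y) :
    ∃ h', mp (E4 n) σ (.some x y h) = .some (σ x) (σ y) h' := ⟨_, rfl⟩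

open Classical in
/-- `J` commutes with the elements of `H` -/
lemma mp_J (σ : F ≃ₐ[ℚ] F) (hσ : σ ζ = ζ) (P : Pts F (E4 n)) :
    mp (E4 n) σ (J n hζ P) = J n hζ (mp (E4 n) σ P) := by
  match P with
  | 0 => rfl
  | .some x y h =>
    show Affine.Point.some (σ (-x)) (σ (ζ * y)) _ = Affine.Point.some (-(σ x)) (ζ * σ y) _
    refine (Affine.Point.some.injEq ..).mpr ⟨map_neg σ x, ?_⟩
    rw [map_mul, hσ]

open Classical in
/-- the powers of `J` -/
noncomputable def JP (n : ℤ) {ζ : F} (hζ : ζ ^ 2 = -1) : ℕ → (Pts F (E4 n) →+ Pts F (E4 n))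
  | 0 => AddMonoidHom.id _
  | m + 1 => (J n hζ).comp (JP n hζ m)

open Classical in
lemma JP_zero (P : Pts F (E4 n)) : JP n hζ 0 P = P := rfl

open Classical in
lemma JP_succ (m : ℕ) (P : Pts F (E4 n)) : JP n hζ (m + 1) P = J n hζ (JP n hζ m P) := rfl

open Classical in
lemma JP_add (m m' : ℕ) (P : Pts F (E4 n)) : JP n hζ (m + m') P = JP n hζ m (JP n hζ m' P) := by
  induction m with
  | zero => rw [zero_add, JP_zero]
  | succ m ih => rw [show m + 1 + m' = (m + m') + 1 by ring, JP_succ, JP_succ, ih]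

open Classical in
lemma mp_JP (σ : F ≃ₐ[ℚ] F) (hσ : σ ζ = ζ) (m : ℕ) (P : Pts F (E4 n)) :
    mp (E4 n) σ (JP n hζ m P) = JP n hζ m (mp (E4 n) σ P) := by
  induction m with
  | zero => rw [JP_zero, JP_zero]
  | succ m ih => rw [JP_succ, JP_succ, mp_J hζ σ hσ, ih]

open Classical in
lemma JP_some (m : ℕ) {x y : F} (h : (WF F n).Nonsingular x y) :
    ∃ h', JP n hζ m (.some x y h) = .some ((-1) ^ m * x) (ζ ^ m * y) h' := by
  induction m with
  | zero =>
    refine ⟨by simpa using h, ?_⟩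
    rw [JP_zero]
    refine (Affine.Point.some.injEq ..).mpr ⟨by ring, by ring⟩
  | succ m ih =>
    obtain ⟨h', hm⟩ := ih
    have h2 : (WF F n).Nonsingular ((-1) ^ (m + 1) * x) (ζ ^ (m + 1) * y) := by
      have := J_ns hζ h'
      convert this using 1 <;> ring
    refine ⟨h2, ?_⟩
    rw [JP_succ, hm, J_some]
    refine (Affine.Point.some.injEq ..).mpr ⟨by ring, by ring⟩

open Classical in
lemma JP_four (P : Pts F (E4 n)) : JP n hζ 4 P = P := by
  match P with
  | 0 => exact map_zero _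
  | .some x y h =>
    obtain ⟨h', h4⟩ := JP_some hζ 4 h
    rw [h4]
    refine (Affine.Point.some.injEq ..).mpr ⟨by ring, ?_⟩
    have : ζ ^ 4 = 1 := by
      calc ζ ^ 4 = (ζ ^ 2) ^ 2 := by ring
        _ = 1 := by rw [hζ]; ring
    rw [this, one_mul]

open Classical in
lemma JP_four_mul (k : ℕ) (P : Pts F (E4 n)) : JP n hζ (4 * k) P = P := by
  induction k with
  | zero => exact JP_zero hζ P
  | succ k ih =>
    rw [show 4 * (k + 1) = 4 + 4 * k by ring, JP_add, ih, JP_four]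

open Classical in
lemma JP_mod {a b : ℕ} (hab : a % 4 = b % 4) (P : Pts F (E4 n)) : JP n hζ a P = JP n hζ b P := by
  have h1 : ∀ c : ℕ, JP n hζ c P = JP n hζ (c % 4) P := by
    intro c
    conv_lhs => rw [← Nat.div_add_mod c 4, add_comm, JP_add, JP_four_mul]
  rw [h1 a, h1 b, hab]

end Pool.Agent.Helper35K9.NQ.Rep4L
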