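import Pool.Agent.Helper26K9.QT.Good4
import Pool.Agent.Helper26K9.QT.StmR

/-!
# Quartic twists with mixed exponents: the leaves R1M and LM
-/

set_option autoImplicit false

open Finset

namespace Pool.Agent.Helper35K9.NQ

open Pool.Agent.Y690.PP Pool.Agent.Y690.PP.Fn Pool.Agent.Helper26K9.DN Pool.Agent.Helper26K9.QT

/-- R1M: the descent by `1 + i` on `y² = x³ - c x`, `c = s ∏_(p ∈ A) p ^ (e p)`, all the `e p` equal to `1` or `3`,
`s = ± 1`. The proof of `r1` (`Helper26K9/QT/R1.lean`) with mixed exponents.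

`R1L.decomp` gives `x = d (f/b)²`, `Y² = d (d² f⁴ - c b⁴)`, `d` squarefree, `d ∣ rad c`. Local conditions at
`p ∈ A`, `c = p ^ e c'` (`p ∤ c'`, `e = 1` or `3`):
(i) `p ∤ d`: then `qs p d = 1`. If `p ∤ f`: `Y² ≡ d (d f²)² mod p`. If `p ∣ f`: `p ∤ b` and the valuation of the right
side is `e`, odd: impossible.
(ii) `d = p d'` (`p ∤ d'`): then `qs p (d' c') = 1`: the valuation of `d³ f⁴` is odd, so `Y² ≈ - d c b⁴` has the smaller
(even) valuation, and the unit part is `- d' c' (..)²`. (`e = 1`: `Y = p Y₁`, `Y₁² = p d'³ f⁴ - d' c' b⁴`, and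
`p ∣ b` is impossible; `e = 3`: `Y = p² Y₂`, `p Y₂² = d'³ f⁴ - p d' c' b⁴`, so `p ∣ f`, `p ∤ b`,
`Y₂² = p³ d'³ f₁⁴ - d' c' b⁴`.)
With `d = v PA V` (`struct`), `d' c' = ` (unit, squares) `* ∏ (A \ V)`: the same conditions as in `R1L.main`. -/
def S_R1M : Prop := ∀ A : Finset Pr, XX gs (fun _ => (1 : ℝ)) A = 2 → ch A = -1 →
  ∀ e : Pr → ℕ, (∀ p ∈ A, e p = 1 ∨ e p = 3) → ∀ s : G, (s = 1 ∨ s = -1) →
  ∀ x y : FractionRing G, x ≠ 0 →
    y ^ 2 = x ^ 3 - algebraMap G (FractionRing G) (s * ∏ p ∈ A, p.1 ^ e p) * x →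
    (∃ w : FractionRing G, x = w ^ 2) ∨
      ∃ w : FractionRing G, -algebraMap G (FractionRing G) (s * ∏ p ∈ A, p.1 ^ e p) = x * w ^ 2

open Classical in
/-- LM: the central values for mixed exponents: `goodE` (`Helper26K9/QA/Fin.lean`) with the characters
`x p = x4 p` or `xb x4 p` (`XC`, `XC.conj`) for `p ∈ S = A.map (em hRR)`; `powersE` is for all such `x`; `j = 1`. -/
def S_LM : Prop := ∀ A : Finset Pr, XX gs (fun _ => (1 : ℝ)) A = 2 → ch A = -1 →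
  ∀ (C : Finset Pr) (m a b : ℕ), 1 ≤ m → a + b = 2 * m - 1 →
    ∃ L : ℂ → ℂ, Differentiable ℂ L ∧ (∀ s : ℂ, ((a : ℝ) + b) / 2 + 1 < s.re →
      HasProd (fun p : Pr => (1 - (∏ q ∈ A, if q ∈ C then (starRingEnd ℂ) (symb q.1 p.1)
        else symb q.1 p.1) * (p.1 : ℂ) ^ a *
        (starRingEnd ℂ) (p.1 : ℂ) ^ b * ((p.1.norm : ℤ) : ℂ) ^ (-s))⁻¹) (L s)) ∧ L m ≠ 0

end Pool.Agent.Helper35K9.NQ
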