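import Pool.Agent.Helper35K9.TW.Brg
import Pool.Agent.Helper35K9.TW.Tow
import Pool.Agent.Helper26K9.DN.MomD

/-! The criterion in the odd case: a minor of the Laplacian. -/

set_option autoImplicit false

namespace Pool.Agent.Helper35K9.NQ

open Finset
open Pool.Agent.Helper35K9.TW
open Pool.Agent.Y697.MQ (OP gA leg leg_cases leg_ne)
open Pool.Agent.Y690.PP (qs sg gs gN XX Kn cc)
open Pool.Agent.Y697.PP (Mt)

/-- the kernel of the Laplacian consists of the constants if a minor is invertible -/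
theorem const_of_det {S : Finset GaussianInt} {x₀ : GaussianInt} (hx₀ : x₀ ∈ S)
    (h : (Mt gA (fun v => gA v x₀) (S.erase x₀)).det ≠ 0) (t : GaussianInt → ZMod 2)
    (ht : ∀ v ∈ S, ∑ u ∈ S, gA v u * (t v + t u) = 0) : ∀ v ∈ S, t v = t x₀ := by
  have h1 := Pool.Agent.Y697.PP.ker_of_det gA (fun v => gA v x₀) h (fun v => t v + t x₀) ?_
  · intro v hv
    by_cases hvx : v = x₀
    · rw [hvx]
    · have h2 := h1 v (mem_erase.2 ⟨hvx, hv⟩)
      have h3 : ∀ a b : ZMod 2, a + b = 0 → a = b := by decide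
      exact h3 _ _ h2
  · intro v hv
    have h2 := ht v (mem_of_mem_erase hv)
    rw [← add_sum_erase S _ hx₀] at h2
    rw [← h2]
    congr 1
    refine sum_congr rfl fun u _ => ?_
    have h3 : ∀ a b c : ZMod 2, a + b + (c + b) = a + c := by decide
    rw [h3]

/-- **The criterion.** -/
theorem xx_two {S : Finset GaussianInt} (hS : ∀ p ∈ S, OP p) {x₀ : GaussianInt} (hx₀ : x₀ ∈ S)
    (h : (Mt gA (fun v => gA v x₀) (S.erase x₀)).det ≠ 0) :
    XX gs (fun _ => (1 : ℝ)) (toA S hS) = 2 := by
  classical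
  obtain ⟨A, hA⟩ : ∃ A, A = toA S hS := ⟨_, rfl⟩
  rw [← hA]
  unfold XX
  have hval1 : ((1 : ZMod 2)).val = 1 := rfl
  have hval0 : ((0 : ZMod 2)).val = 0 := rfl
  have hne : (0 : A → ZMod 2) ≠ (fun _ => 1) := by
    intro h1
    have hp : toP S hS ⟨x₀, hx₀⟩ ∈ A := by
      rw [hA]; exact Finset.mem_map_of_mem _ (Finset.mem_attach _ _)
    have h2 := congrFun h1 ⟨_, hp⟩
    exact absurd (show (0 : ZMod 2) = 1 from h2) (by decide)
  rw [Finset.card_eq_two]
  refine ⟨0, fun _ => 1, hne, ?_⟩
  ext ν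
  rw [mem_insert, mem_singleton]
  constructor
  · intro hν
    unfold Kn at hν
    rw [Finset.mem_filter] at hν
    have hν' := hν.2
    let t : GaussianInt → ZMod 2 := fun g => if hg : g ∈ S then
      ν ⟨toP S hS ⟨g, hg⟩, by rw [hA]; exact Finset.mem_map_of_mem _ (Finset.mem_attach _ _)⟩ else 0
    have ht : ∀ p : A, t (p : Pool.Agent.Y690.PP.Pr).1 = ν p := by
      intro p
      have hp : (p : Pool.Agent.Y690.PP.Pr).1 ∈ S := (mem_toA (hS := hS)).1 (by rw [← hA]; exact p.2)
      show (if hg : _ then _ else _) = _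
      rw [dif_pos hp]
      congr 1
    have hker := const_of_det hx₀ h t ?_
    · have h2 : ∀ p : A, ν p = t x₀ := by
        intro p
        rw [← ht p]
        exact hker _ ((mem_toA (hS := hS)).1 (by rw [← hA]; exact p.2))
      have h3 : ∀ z : ZMod 2, z = 0 ∨ z = 1 := by decide
      rcases h3 (t x₀) with h4 | h4
      · left
        funext p
        rw [h2 p, h4]
        rfl
      · right
        funext p
        rw [h2 p, h4]
    · intro v hv
      have hp : toP S hS ⟨v, hv⟩ ∈ A := by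
        rw [hA]; exact Finset.mem_map_of_mem _ (Finset.mem_attach _ _)
      have h1 := hν' ⟨toP S hS ⟨v, hv⟩, hp⟩
      unfold cc at h1
      have hvO := hS v hv
      have e3 : ∏ q : A, gs q (toP S hS ⟨v, hv⟩) ^ (ν q + ν ⟨toP S hS ⟨v, hv⟩, hp⟩).val =
          sR (∑ u ∈ S, gA v u * (t v + t u)) := by
        rw [sR_sum]
        have e4 : ∀ q : A, gs q (toP S hS ⟨v, hv⟩) ^ (ν q + ν ⟨toP S hS ⟨v, hv⟩, hp⟩).val =
            sR (gA v (q : Pool.Agent.Y690.PP.Pr).1 * (t v + t (q : Pool.Agent.Y690.PP.Pr).1)) := by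
          intro q
          have hq : (q : Pool.Agent.Y690.PP.Pr).1 ∈ S := (mem_toA (hS := hS)).1 (by rw [← hA]; exact q.2)
          have e5 : gs q (toP S hS ⟨v, hv⟩) = ((leg (q : Pool.Agent.Y690.PP.Pr).1 v : ℤ) : ℝ) := by
            unfold gs
            rw [leg_eq_qs]
            rfl
          have e6 : ν q + ν ⟨toP S hS ⟨v, hv⟩, hp⟩ = t v + t (q : Pool.Agent.Y690.PP.Pr).1 := by
            rw [ht q, add_comm, ← ht ⟨toP S hS ⟨v, hv⟩, hp⟩]
            rfl
          rw [e5, e6]
          by_cases hne : (q : Pool.Agent.Y690.PP.Pr).1 = v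
          · rw [hne, CharTwo.add_self_eq_zero, mul_zero]
            have : sR 0 = 1 := if_pos rfl
            rw [this]
            exact pow_zero _
          · have hl : leg (q : Pool.Agent.Y690.PP.Pr).1 v = 1 ∨
                leg (q : Pool.Agent.Y690.PP.Pr).1 v = -1 :=
              leg_ne fun hd => hne ((hS _ hq).dvd hvO hd)
            rw [sR_pow hl]
            rfl
        rw [Finset.prod_congr rfl fun q _ => e4 q]
        have e7 : ∏ q : A, sR (gA v (q : Pool.Agent.Y690.PP.Pr).1 *
            (t v + t (q : Pool.Agent.Y690.PP.Pr).1)) =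
            ∏ q ∈ A, sR (gA v q.1 * (t v + t q.1)) :=
          Finset.prod_coe_sort A (fun q => sR (gA v q.1 * (t v + t q.1)))
        rw [e7, hA]
        unfold toA
        rw [Finset.prod_map]
        exact Finset.prod_attach S (fun u => sR (gA v u * (t v + t u)))
      rw [one_pow, one_mul] at h1
      have h2 : sR (∑ u ∈ S, gA v u * (t v + t u)) = 1 := by
        rw [← e3]
        exact h1
      rw [sR_one] at h2
      exact h2
  · intro hν
    unfold Kn
    rw [Finset.mem_filter]
    refine ⟨Finset.mem_univ _, fun p => ?_⟩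
    rcases hν with rfl | rfl
    · unfold cc
      simp
    · unfold cc
      have h1 : ((1 : ZMod 2) + 1).val = 0 := rfl
      simp [h1]

end Pool.Agent.Helper35K9.NQ
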