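import Pool.Agent.Helper35K9.NQ.Df
import Pool.Agent.Helper35K9.NQ.Nsd5
import Pool.Agent.Helper35K9.NQ.StmM
import Pool.Agent.Helper35K9.NQ.Ari0
import Pool.Agent.Helper35K9.NQ.Xx
import Pool.Agent.Helper26K9.QT.R2

/-! The rule from the criterion, odd case. -/

set_option autoImplicit false

namespace Pool.Agent.Helper35K9.NQ

open Finset
open Pool.Agent.Helper35K9.OF
open Pool.Agent.Y697.MQ (leg leg_ne leg_congr leg_eq_zero leg_mul leg_sq_eq OP Pr_iff Pr_prod gA Gd recip gA_zero)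
open Pool.Agent.Helper35K9.TW
open Pool.Agent.Helper35K9.LW.Rep (Primary symbol op_iff symbol_eq leg_neg_left inert_leg leg_i cast_prod IsIrr mult)
open Pool.Agent.Y697.PP (Mt)
open Pool.Agent.Y690.PP (XX gs)
open Pool.Agent.Y690.PP.Fn (PA)

/-- the product of the numbers `- p` -/
theorem star4_eq {d : ℕ} (hsq : Squarefree d) (h4 : ∀ p ∈ d.primeFactors, p % 4 = 3) :
    star4 d = ∏ p ∈ d.primeFactors, (-(p : ℤ)) := by
  set z : ℤ := ∏ p ∈ d.primeFactors, (-(p : ℤ)) with hz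
  have h1 : z % 4 = 1 := by
    rw [hz]
    refine Finset.prod_induction (fun p : ℕ => (-(p : ℤ))) (fun z => z % 4 = 1) ?_ (by norm_num) ?_
    · intro a b ha hb
      rw [Int.mul_emod, ha, hb]
      norm_num
    · intro p hp
      have := h4 p hp
      omega
  have h2 : z.natAbs = d := by
    conv_rhs => rw [← Nat.prod_primeFactors_of_squarefree hsq]
    rw [hz, ← Int.natAbsHom_apply, map_prod]
    refine prod_congr rfl fun p _ => ?_
    rw [Int.natAbsHom_apply, Int.natAbs_neg, Int.natAbs_natCast]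
  unfold star4
  have h3 := Int.natAbs_eq z
  rw [h2] at h3
  split_ifs with h
  · rcases h3 with h3 | h3
    · exact h3.symm
    · exfalso
      omega
  · rcases h3 with h3 | h3
    · exfalso
      omega
    · exact h3.symm

/-- the character as a product over a set -/
theorem chi_prod {T : Finset GaussianInt} (hT : ∀ x ∈ T, OP x) {z u : GaussianInt} (hu : IsUnit u)
    (hz : z = u * ∏ x ∈ T, x) (α : GaussianInt) : chi z α = ∏ x ∈ T, symbol4 x α := by
  classical
  have hfin : ∀ p : PrimaryPrime, p.1 ∣ z ↔ p.1 ∈ T := by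
    intro p
    have hO : OP p.1 := (op_iff p.1).2 p.2
    constructor
    · intro h
      rw [hz] at h
      rcases hO.pr.dvd_or_dvd h with h | h
      · exact absurd (isUnit_of_dvd_unit h hu) hO.pr.not_isUnit
      · obtain ⟨x, hx, hpx⟩ := (Prime.dvd_finsetProd_iff hO.pr _).1 h
        rw [hO.dvd (hT x hx) hpx]
        exact hx
    · intro h
      rw [hz]
      exact (dvd_prod_of_mem (fun x : GaussianInt => x) h).mul_left _
  unfold chi
  have hinj : Function.Injective (fun x : {x // x ∈ T} => (⟨x.1, (op_iff x.1).1 (hT x.1 x.2)⟩ : PrimaryPrime)) := by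
    intro a b h
    exact Subtype.ext (congrArg (fun p : PrimaryPrime => p.1) h)
  have h1 : ∏ᶠ (p : PrimaryPrime) (_ : p.1 ∣ z), symbol4 p.1 α =
      ∏ p ∈ T.attach.map ⟨_, hinj⟩, symbol4 p.1 α := by
    refine finprod_cond_eq_prod_of_cond_iff _ fun {p} _ => ?_
    rw [hfin]
    constructor
    · intro h
      exact Finset.mem_map.2 ⟨⟨p.1, h⟩, mem_attach _ _, rfl⟩
    · intro h
      obtain ⟨x, -, hx⟩ := Finset.mem_map.1 h
      rw [← hx]
      exact x.2
  rw [h1, Finset.prod_map]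
  exact Finset.prod_attach T (fun x => symbol4 x α)

/-- the two index sets -/
def eqv4 : PrimaryPrime ≃ Pool.Agent.Y690.PP.Pr := Equiv.subtypeEquivRight fun _ => Iff.rfl

/-- products over the set of primes -/
theorem prod_toA {S : Finset GaussianInt} (hS : ∀ p ∈ S, OP p) {M : Type} [CommMonoid M]
    (f : GaussianInt → M) : ∏ p ∈ toA S hS, f p.1 = ∏ x ∈ S, f x := by
  unfold toA
  rw [Finset.prod_map]
  exact Finset.prod_attach S f

/-- the class modulo `4` -/
theorem four_dvd (v : GaussianInt) : (4 : GaussianInt) ∣ v ↔ v.re % 4 = 0 ∧ v.im % 4 = 0 :=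
  Pool.Agent.Helper26K9.DN.four_dvd_iff v

/-- the primary divisors -/
theorem exists_B {Q : Finset GaussianInt} (hQ : ∀ x ∈ Q, OP x) {D g : GaussianInt}
    (hD : D = -∏ x ∈ Q, x) (hN : Squarefree D.norm.natAbs) (hg : Primary g) (hgD : g ∣ D) :
    ∃ B ⊆ Q, g = ∏ x ∈ B, x := by
  obtain ⟨T, hT, e, he, hge⟩ := Pool.Agent.Y697.MQ.exists_ker2 g ((Pool.Agent.Y697.MQ.Pr_iff g).2 hg)
  have he1 : e = 1 := by
    apply he.unit
    have h1 : e.norm.natAbs * e.norm.natAbs ∣ D.norm.natAbs := by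
      obtain ⟨c, hc⟩ := hgD
      rw [hc, hge, Zsqrtd.norm_mul, Zsqrtd.norm_mul, pow_two, Zsqrtd.norm_mul, Int.natAbs_mul,
        Int.natAbs_mul, Int.natAbs_mul]
      exact (dvd_mul_left _ _).mul_right _
    exact Zsqrtd.norm_eq_one_iff.1 (Nat.isUnit_iff.1 (hN _ h1))
  rw [he1, one_pow, mul_one] at hge
  refine ⟨T, fun l hl => ?_, hge⟩
  obtain ⟨h1, h2⟩ := hT l hl
  have h3 : l ∣ ∏ x ∈ Q, x := by
    have h4 := h2.trans hgD
    rw [hD] at h4
    exact (dvd_neg).1 h4
  obtain ⟨x, hx, hlx⟩ := (Prime.dvd_finsetProd_iff h1.pr _).1 h3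
  rw [h1.dvd (hQ x hx) hlx]
  exact hx

/-- the third power of the symbol is the conjugate -/
theorem symbol4_cube (p α : GaussianInt) :
    symbol4 p α * symbol4 p α ^ 2 = (starRingEnd ℂ) (symbol4 p α) := by
  classical
  unfold symbol4
  split_ifs with h
  · obtain ⟨h1, -⟩ := Classical.choose_spec h
    set u : GaussianInt := Classical.choose h with hu
    have h2 : ((u : GaussianInt) : ℂ) ^ 4 = 1 := by
      rw [← map_pow, h1, map_one]
    have h3 : ‖((u : GaussianInt) : ℂ)‖ = 1 := by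
      have h4 : ‖((u : GaussianInt) : ℂ)‖ ^ 4 = 1 := by rw [← norm_pow, h2, norm_one]
      exact (pow_eq_one_iff_of_nonneg (norm_nonneg _) (by norm_num)).1 h4
    have h5 : ((u : GaussianInt) : ℂ) * (starRingEnd ℂ) ((u : GaussianInt) : ℂ) = 1 := by
      rw [Complex.mul_conj, Complex.normSq_eq_norm_sq, h3]
      norm_num
    have h6 : ((u : GaussianInt) : ℂ) ≠ 0 := by
      intro h0
      rw [h0, norm_zero] at h3
      exact zero_ne_one h3
    apply mul_left_cancel₀ h6
    rw [h5, ← h2]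
    ring
  · rw [map_zero, zero_mul]

open Classical in
/-- **The rule.** -/
theorem rule_det4 (hrep : S_REP4) (hdim : S_DIM4) (hr1 : S_R1M) (hlm : S_LM)
    (hsch : S_SCH) {Q : Finset GaussianInt} (hQ : ∀ x ∈ Q, OP x) {D : GaussianInt}
    (hD : D = -∏ x ∈ Q, x) (hD4 : (4 : GaussianInt) ∣ D - ⟨1, 2⟩) (hN : Squarefree D.norm.natAbs)
    (hN2 : ¬ IsSquare D.norm)
    {x₀ : GaussianInt} (hx₀ : x₀ ∈ Q) {s : ℕ} (e : Fin s ≃ (Q.erase x₀ : Finset GaussianInt)) {d : ℕ}
    (hsq : Squarefree d) (hp : ∀ p : ℕ, p.Prime → p ∣ d → P4 D p)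
    (hdet : (Mx0 e + alt (∑ p ∈ d.primeFactors, bb0 e p)).det ≠ 0) {g : GaussianInt}
    (hg : Primary g) (hgD : g ∣ D) : Rule4 d D g := by
  have hd' : ∀ p ∈ d.primeFactors, p % 4 = 3 ∧ leg (-(p : GaussianInt)) (∏ x ∈ Q, x) = -1 := by
    intro p hpd
    obtain ⟨h1, h2⟩ := hp p (Nat.prime_of_mem_primeFactors hpd) (Nat.dvd_of_mem_primeFactors hpd)
    refine ⟨h1, ?_⟩
    have h3 := inert_OP4 (Nat.prime_of_mem_primeFactors hpd) h1
    rw [symbol_eq, ← leg_neg_left, hD, leg_neg_right h3.pr] at h2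
    exact h2
  obtain ⟨h1, h2⟩ := det_union0 e hsch hQ hx₀ hd'
  set U := d.primeFactors.image fun p : ℕ => -(p : GaussianInt) with hU
  have hUO : ∀ x ∈ U, OP x := by
    intro x hx
    obtain ⟨p, hpd, rfl⟩ := mem_image.1 hx
    exact inert_OP4 (Nat.prime_of_mem_primeFactors hpd) (hd' p hpd).1
  have hO : ∀ x ∈ Q ∪ U, OP x := by
    intro x hx
    rcases mem_union.1 hx with hx | hx
    · exact hQ x hx
    · exact hUO x hx
  have hXX : XX gs (fun _ => (1 : ℝ)) (toA (Q ∪ U) hO) = 2 := by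
    refine xx_two hO (mem_union_left _ hx₀) ?_
    rw [← h2] at hdet
    convert hdet
  set A := toA (Q ∪ U) hO with hA
  -- the number `n`
  have hn : ((star4 d : ℤ) : GaussianInt) = ∏ x ∈ U, x := by
    rw [star4_eq hsq fun p hpd => (hd' p hpd).1, hU,
      prod_image (fun p _ q _ h => by exact_mod_cast neg_injective h)]
    push_cast
    rfl
  have hn1 : star4 d % 4 = 1 := by
    have h5 : d % 4 = 1 ∨ d % 4 = 3 := by
      have h6 := star4_eq hsq fun p hpd => (hd' p hpd).1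
      have h7 : (∏ p ∈ d.primeFactors, (-(p : ℤ))) % 4 = 1 := by
        refine Finset.prod_induction (fun p : ℕ => (-(p : ℤ))) (fun z => z % 4 = 1) ?_ (by norm_num) ?_
        · intro a b ha hb
          rw [Int.mul_emod, ha, hb]
          norm_num
        · intro p hpd
          have := (hd' p hpd).1
          omega
      rw [← h6] at h7
      unfold star4 at h7
      split_ifs at h7 with h8
      · exact Or.inl h8
      · right
        omega
    unfold star4
    split_ifs with h6 <;> omega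
  have hprod : ∏ x ∈ Q ∪ U, x = (-D) * (star4 d : ℤ) := by
    rw [prod_union h1, hn, hD, neg_neg]
  -- the sign
  have hch : Pool.Agent.Helper26K9.DN.ch A = -1 := by
    have h5 : PA A = ∏ x ∈ Q ∪ U, x := PA_toA _ hO
    have h6 := Pool.Agent.Helper26K9.DN.gi_prod A
    unfold Pool.Agent.Helper26K9.DN.ch
    rw [← h6, h5, hprod]
    have h7 : ¬ (4 : GaussianInt) ∣ (-D) * (star4 d : ℤ) - 1 := by
      intro h8
      rw [four_dvd] at hD4 h8
      obtain ⟨a1, a2⟩ := hD4
      obtain ⟨b1, b2⟩ := h8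
      simp only [Zsqrtd.re_sub, Zsqrtd.im_sub] at a1 a2
      have c1 : ((-D) * ((star4 d : ℤ) : GaussianInt) - 1).im = -(D.im * star4 d) := by
        simp
      rw [c1] at b2
      have c2 : D.im % 4 = 2 := by omega
      have c3 : (D.im * star4 d) % 4 = 2 := by
        rw [Int.mul_emod, c2, hn1]
        norm_num
      omega
    unfold Pool.Agent.Helper26K9.DN.gi
    rw [if_neg h7]
    norm_num
  have hN0 : D ≠ 0 := by
    rw [hD, neg_ne_zero, Finset.prod_ne_zero_iff]
    exact fun x hx => (hQ x hx).pr.ne_zero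
  have hn0 : star4 d ≠ 0 := by
    intro h
    rw [h] at hn1
    norm_num at hn1
  obtain ⟨B, hBQ, hgB⟩ := exists_B hQ hD hN hg hgD
  have hg0 : g ≠ 0 := by
    rw [hgB, Finset.prod_ne_zero_iff]
    exact fun x hx => (hQ x (hBQ hx)).pr.ne_zero
  have hDg0 : D * g ^ 2 ≠ 0 := mul_ne_zero hN0 (pow_ne_zero 2 hg0)
  have hDgN : ¬ IsSquare (D * g ^ 2).norm := by
    intro h
    apply hN2
    rw [pow_two, Zsqrtd.norm_mul, Zsqrtd.norm_mul] at h
    obtain ⟨z, hz⟩ := h
    have h1 : g.norm ≠ 0 := fun h => hg0 ((GaussianInt.norm_eq_zero).1 h)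
    have h2 : g.norm * g.norm ∣ z * z := ⟨D.norm, by rw [← hz]; ring⟩
    have h3 : g.norm ∣ z := (Int.pow_dvd_pow_iff (n := 2) (by norm_num)).1 (by
      rw [pow_two, pow_two]
      exact h2)
    obtain ⟨w, hw⟩ := h3
    refine ⟨w, ?_⟩
    have h4 : (g.norm * g.norm) * D.norm = (g.norm * g.norm) * (w * w) := by
      rw [hw] at hz
      linear_combination hz
    exact mul_left_cancel₀ (mul_ne_zero h1 h1) h4
  -- the products
  have hprodB : ∀ f : GaussianInt → GaussianInt, ∏ x ∈ B, f x = ∏ x ∈ Q, if x ∈ B then f x else 1 := by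
    intro f
    rw [Finset.prod_ite_mem, Finset.inter_eq_right.2 hBQ]
  have hUB : ∀ x ∈ U, x ∉ B := fun x hx hxB => disjoint_left.1 h1 (hBQ hxB) hx
  -- the points
  have hF1 : FinC ((star4 d : GaussianInt) * (D * g ^ 2)) := by
    have h5 : (-1 : GaussianInt) * ∏ p ∈ A, p.1 ^ (fun p : Pool.Agent.Y690.PP.Pr => if p.1 ∈ B then 3 else 1) p =
        (star4 d : GaussianInt) * (D * g ^ 2) := by
      have h6 : ∏ p ∈ A, p.1 ^ (if p.1 ∈ B then 3 else 1) =
          ((∏ x ∈ Q, x) * (∏ x ∈ B, x) ^ 2) * ∏ x ∈ U, x := by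
        have h7 : ∏ p ∈ A, p.1 ^ (if p.1 ∈ B then 3 else 1) =
            ∏ x ∈ Q ∪ U, x ^ (if x ∈ B then 3 else 1) :=
          prod_toA hO fun x => x ^ (if x ∈ B then 3 else 1)
        rw [h7, prod_union h1, ← Finset.prod_pow, hprodB fun x => x ^ 2, ← Finset.prod_mul_distrib]
        congr 1
        · refine prod_congr rfl fun x hx => ?_
          by_cases h : x ∈ B
          · rw [if_pos h, if_pos h]; ring
          · rw [if_neg h, if_neg h]; ring
        · refine prod_congr rfl fun x hx => ?_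
          rw [if_neg (hUB x hx), pow_one]
      simp only [h6, ← hn, hD, hgB]
      ring
    have h6 := Pool.Agent.Helper26K9.QT.r2 ((star4 d : GaussianInt) * (D * g ^ 2))
      (mul_ne_zero (by exact_mod_cast hn0) hDg0) (by
        rw [← h5]
        exact hr1 A hXX hch (fun p : Pool.Agent.Y690.PP.Pr => if p.1 ∈ B then 3 else 1)
          (fun p _ => by
            by_cases h : p.1 ∈ B
            · right
              simp only [if_pos h]
            · left
              simp only [if_neg h]) (-1) (Or.inr rfl))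
    exact h6
  have hF3 : FinC ((star4 d : GaussianInt) * (D * g ^ 2) ^ 3) := by
    set c : GaussianInt := (-1 : GaussianInt) * ∏ p ∈ A, p.1 ^
      (fun p : Pool.Agent.Y690.PP.Pr => if p.1 ∈ Q ∧ p.1 ∉ B then 3 else 1) p with hc
    have h5 : c * (g ^ 2) ^ 4 = (star4 d : GaussianInt) * (D * g ^ 2) ^ 3 := by
      have h6 : (∏ p ∈ A, p.1 ^ (if p.1 ∈ Q ∧ p.1 ∉ B then 3 else 1)) * ((∏ x ∈ B, x) ^ 2) ^ 4 =
          ((∏ x ∈ Q, x) ^ 3 * (∏ x ∈ B, x) ^ 6) * ∏ x ∈ U, x := by
        have h7 : ∏ p ∈ A, p.1 ^ (if p.1 ∈ Q ∧ p.1 ∉ B then 3 else 1) =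
            ∏ x ∈ Q ∪ U, x ^ (if x ∈ Q ∧ x ∉ B then 3 else 1) :=
          prod_toA hO fun x => x ^ (if x ∈ Q ∧ x ∉ B then 3 else 1)
        have h8 : ∏ x ∈ U, x ^ (if x ∈ Q ∧ x ∉ B then 3 else 1) = ∏ x ∈ U, x := by
          refine prod_congr rfl fun x hx => ?_
          rw [if_neg fun h => (disjoint_left.1 h1 h.1) hx, pow_one]
        have h9 : (∏ x ∈ Q, x ^ (if x ∈ Q ∧ x ∉ B then 3 else 1)) * ((∏ x ∈ B, x) ^ 2) ^ 4 =
            (∏ x ∈ Q, x) ^ 3 * (∏ x ∈ B, x) ^ 6 := by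
          rw [← pow_mul, ← Finset.prod_pow, ← Finset.prod_pow, ← Finset.prod_pow,
            hprodB fun x => x ^ (2 * 4), hprodB fun x => x ^ 6, ← Finset.prod_mul_distrib,
            ← Finset.prod_mul_distrib]
          refine prod_congr rfl fun x hx => ?_
          by_cases h : x ∈ B
          · rw [if_neg fun h' => h'.2 h, if_pos h, if_pos h]; ring
          · rw [if_pos ⟨hx, h⟩, if_neg h, if_neg h]
        rw [h7, prod_union h1, h8, ← h9]
        ring
      have h10 : c * (g ^ 2) ^ 4 = -((∏ p ∈ A, p.1 ^ (if p.1 ∈ Q ∧ p.1 ∉ B then 3 else 1)) *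
          ((∏ x ∈ B, x) ^ 2) ^ 4) := by
        rw [hc, hgB]
        ring
      rw [h10, h6, ← hn, hD, hgB]
      ring
    have hc0 : c ≠ 0 := by
      intro h
      rw [h, zero_mul] at h5
      exact mul_ne_zero (by exact_mod_cast hn0) (pow_ne_zero 3 hDg0) h5.symm
    rw [← h5]
    refine finC_scale (pow_ne_zero 2 hg0) ?_
    exact Pool.Agent.Helper26K9.QT.r2 c hc0
      (hr1 A hXX hch (fun p : Pool.Agent.Y690.PP.Pr => if p.1 ∈ Q ∧ p.1 ∉ B then 3 else 1)
          (fun p _ => by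
            by_cases h : p.1 ∈ Q ∧ p.1 ∉ B
            · right
              simp only [if_pos h]
            · left
              simp only [if_neg h]) (-1) (Or.inr rfl))
  -- the characters
  have hsym : ∀ (x α : GaussianInt), Pool.Agent.Helper26K9.QT.symb x α = symbol4 x α := fun _ _ => rfl
  have hcD : ∀ α, chi D α = ∏ x ∈ Q, symbol4 x α := fun α =>
    chi_prod hQ (u := -1) isUnit_one.neg (by rw [hD]; ring) α
  have hcg : ∀ α, chi g α = ∏ x ∈ B, symbol4 x α := fun α =>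
    chi_prod (fun x hx => hQ x (hBQ hx)) (u := 1) isUnit_one (by rw [hgB]; ring) α
  have hcDg : ∀ α, chi D α * chi g α ^ 2 =
      ∏ x ∈ Q, if x ∈ B then (starRingEnd ℂ) (symbol4 x α) else symbol4 x α := by
    intro α
    have h5 : ∏ x ∈ B, symbol4 x α = ∏ x ∈ Q, if x ∈ B then symbol4 x α else 1 := by
      rw [Finset.prod_ite_mem, Finset.inter_eq_right.2 hBQ]
    rw [hcD, hcg, h5, ← Finset.prod_pow, ← Finset.prod_mul_distrib]
    refine prod_congr rfl fun x _ => ?_
    by_cases h : x ∈ B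
    · rw [if_pos h, if_pos h, symbol4_cube]
    · rw [if_neg h, if_neg h, one_pow, mul_one]
  have hcd : ∀ α, chi (d : GaussianInt) α = ∏ x ∈ U, symbol4 x α := by
    intro α
    rcases (by unfold star4; split_ifs; exacts [Or.inl rfl, Or.inr rfl] :
      star4 d = (d : ℤ) ∨ star4 d = -(d : ℤ)) with h | h
    · refine chi_prod hUO (u := 1) isUnit_one ?_ α
      rw [← hn, h]
      push_cast
      ring
    · refine chi_prod hUO (u := -1) isUnit_one.neg ?_ α
      rw [← hn, h]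
      push_cast
      ring
  refine ⟨?_, fun F _ _ _ ι r hr V _ _ ρ hρ hc => ⟨hdim _ hDg0 hDgN F ι r hr V ρ hρ hc,
    nsd5 _ hDg0 hDgN F ι r hr V ρ hρ hc, hrep _ _ hn0 hDg0 hF1 hF3 F ι r hr V ρ hρ hc⟩⟩
  have hgen : ∀ (T : GaussianInt → Prop) (C : Finset Pool.Agent.Y690.PP.Pr)
      (_ : ∀ q ∈ A, (q ∈ C ↔ T q.1)) (α : GaussianInt),
      (∏ q ∈ A, if q ∈ C then (starRingEnd ℂ) (Pool.Agent.Helper26K9.QT.symb q.1 α)
        else Pool.Agent.Helper26K9.QT.symb q.1 α) =
      (∏ x ∈ Q, if T x then (starRingEnd ℂ) (symbol4 x α) else symbol4 x α) *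
        ∏ x ∈ U, if T x then (starRingEnd ℂ) (symbol4 x α) else symbol4 x α := by
    intro T C hC α
    have c2 : (∏ q ∈ A, if q ∈ C then (starRingEnd ℂ) (Pool.Agent.Helper26K9.QT.symb q.1 α)
        else Pool.Agent.Helper26K9.QT.symb q.1 α) =
        ∏ q ∈ A, (if T q.1 then (starRingEnd ℂ) (symbol4 q.1 α) else symbol4 q.1 α) := by
      refine prod_congr rfl fun q hq => ?_
      rw [hsym]
      by_cases h : T q.1
      · have h'' : q ∈ C := (hC q hq).2 h
        rw [if_pos h, if_pos h'']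
      · have h'' : q ∉ C := fun h' => h ((hC q hq).1 h')
        rw [if_neg h, if_neg h'']
    have c3 : ∏ q ∈ A, (if T q.1 then (starRingEnd ℂ) (symbol4 q.1 α) else symbol4 q.1 α) =
        ∏ x ∈ Q ∪ U, (if T x then (starRingEnd ℂ) (symbol4 x α) else symbol4 x α) :=
      prod_toA hO fun x => if T x then (starRingEnd ℂ) (symbol4 x α) else symbol4 x α
    rw [c2, c3, prod_union h1]
  obtain ⟨C₁, hC₁⟩ : ∃ C : Finset Pool.Agent.Y690.PP.Pr,
      ∀ q ∈ A, (q ∈ C ↔ (fun x => x ∈ U ∨ x ∈ B) q.1) :=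
    ⟨A.filter fun p => p.1 ∈ U ∨ p.1 ∈ B, fun q hq => by
      rw [mem_filter]
      exact ⟨fun h => h.2, fun h => ⟨hq, h⟩⟩⟩
  obtain ⟨C₂, hC₂⟩ : ∃ C : Finset Pool.Agent.Y690.PP.Pr,
      ∀ q ∈ A, (q ∈ C ↔ (fun x => x ∈ B) q.1) :=
    ⟨A.filter fun p => p.1 ∈ B, fun q hq => by
      rw [mem_filter]
      exact ⟨fun h => h.2, fun h => ⟨hq, h⟩⟩⟩
  obtain ⟨L₁, a1, a2, a3⟩ := hlm A hXX hch C₁ 1 1 0 le_rfl rfl
  obtain ⟨L₂, b1, b2, b3⟩ := hlm A hXX hch C₂ 1 0 1 le_rfl rfl
  refine ⟨fun s => L₁ s * L₂ s, a1.mul b1, fun s hs => ?_, ?_⟩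
  · have h7 := a2 s (by push_cast; linarith)
    have h8 := b2 s (by push_cast; linarith)
    have h9 := (eqv4.hasProd_iff).2 (h7.mul h8)
    convert h9 using 1
    funext p
    simp only [Function.comp_apply]
    have e1 : (eqv4 p).1 = p.1 := rfl
    have c1 := hgen (fun x => x ∈ U ∨ x ∈ B) C₁ hC₁ p.1
    have c4 := hgen (fun x => x ∈ B) C₂ hC₂ p.1
    have d1 : (∏ x ∈ Q, if x ∈ U ∨ x ∈ B then (starRingEnd ℂ) (symbol4 x p.1) else symbol4 x p.1) =
        chi D p.1 * chi g p.1 ^ 2 := by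
      rw [hcDg]
      refine prod_congr rfl fun x hx => ?_
      by_cases h : x ∈ B
      · rw [if_pos (Or.inr h), if_pos h]
      · rw [if_neg, if_neg h]
        rintro (h' | h')
        · exact disjoint_left.1 h1 hx h'
        · exact h h'
    have d2 : (∏ x ∈ U, if x ∈ U ∨ x ∈ B then (starRingEnd ℂ) (symbol4 x p.1) else symbol4 x p.1) =
        (starRingEnd ℂ) (chi d p.1) := by
      rw [hcd, map_prod]
      exact prod_congr rfl fun x hx => by rw [if_pos (Or.inl hx)]
    have d3 : (∏ x ∈ U, if x ∈ B then (starRingEnd ℂ) (symbol4 x p.1) else symbol4 x p.1) =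
        chi d p.1 := by
      rw [hcd]
      exact prod_congr rfl fun x hx => by rw [if_neg (hUB x hx)]
    have c1' : (∏ q ∈ A, if q ∈ C₁ then (starRingEnd ℂ) (Pool.Agent.Helper26K9.QT.symb q.1 p.1)
        else Pool.Agent.Helper26K9.QT.symb q.1 p.1) =
        (starRingEnd ℂ) (chi d p.1) * (chi D p.1 * chi g p.1 ^ 2) := by
      rw [mul_comm, ← d1, ← d2]
      convert c1
    have c4' : (∏ q ∈ A, if q ∈ C₂ then (starRingEnd ℂ) (Pool.Agent.Helper26K9.QT.symb q.1 p.1)
        else Pool.Agent.Helper26K9.QT.symb q.1 p.1) = chi d p.1 * (chi D p.1 * chi g p.1 ^ 2) := by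
      rw [mul_comm, hcDg, ← d3]
      convert c4
    rw [e1, c1', c4', mul_inv, pow_one, pow_zero, mul_one, pow_one, pow_zero, mul_one]
  · have h7 : (1 : ℂ) = ((1 : ℕ) : ℂ) := by norm_num
    rw [h7]
    exact mul_ne_zero a3 b3

end Pool.Agent.Helper35K9.NQ
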